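import Mathlib

set_option autoImplicit false

namespace Pool.Agent.H26.SL.A31168

/-- weight `w i = n^2 - i^2` -/
noncomputable def w (n : ℕ) (i : ℕ) : ℝ := (n : ℝ) ^ 2 - (i : ℝ) ^ 2

/-- the points `q i = (i, 1) / w i` -/
noncomputable def q (n : ℕ) (i : ℕ) : EuclideanSpace ℝ (Fin 2) :=
  !₂[(i : ℝ) / w n i, 1 / w n i]

theorem w_pos {n i : ℕ} (h : i < n) : 0 < w n i := by
  unfold w
  have h1 : (i : ℝ) < n := by exact_mod_cast h
  have h0 : (0 : ℝ) ≤ i := Nat.cast_nonneg i
  nlinarith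

theorem q_zero (n i : ℕ) : q n i 0 = (i : ℝ) / w n i := by simp [q]
theorem q_one (n i : ℕ) : q n i 1 = 1 / w n i := by simp [q]

theorem q_one_pos {n i : ℕ} (h : i < n) : 0 < q n i 1 := by
  rw [q_one]; exact one_div_pos.mpr (w_pos h)

theorem q_x (n i : ℕ) : q n i 0 = (i : ℝ) * q n i 1 := by
  rw [q_zero, q_one]; ring

/-- half planes are convex -/
theorem hull_le (S : Set (EuclideanSpace ℝ (Fin 2))) (a b c : ℝ)
    (h : ∀ v ∈ S, a * v 0 + b * v 1 ≤ c) :
    ∀ v ∈ convexHull ℝ S, a * v 0 + b * v 1 ≤ c := by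
  have hc : Convex ℝ {v : EuclideanSpace ℝ (Fin 2) | a * v 0 + b * v 1 ≤ c} := by
    intro x hx y hy s t hs ht hst
    change a * x 0 + b * x 1 ≤ c at hx
    change a * y 0 + b * y 1 ≤ c at hy
    change a * (s • x + t • y) 0 + b * (s • x + t • y) 1 ≤ c
    have e0 : (s • x + t • y) 0 = s * x 0 + t * y 0 := by simp
    have e1 : (s • x + t • y) 1 = s * x 1 + t * y 1 := by simp
    rw [e0, e1]
    have : c = s * c + t * c := by rw [← add_mul, hst, one_mul]
    rw [this]
    nlinarith [mul_le_mul_of_nonneg_left hx hs, mul_le_mul_of_nonneg_left hy ht]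
  intro v hv
  exact convexHull_min (fun v hv => h v hv) hc hv

theorem hull_ge (S : Set (EuclideanSpace ℝ (Fin 2))) (a b c : ℝ)
    (h : ∀ v ∈ S, c ≤ a * v 0 + b * v 1) :
    ∀ v ∈ convexHull ℝ S, c ≤ a * v 0 + b * v 1 := by
  intro v hv
  have := hull_le S (-a) (-b) (-c) (fun v hv => by have := h v hv; linarith) v hv
  linarith

/-- the linear functional `L i` takes value `1` exactly on the line through `q i`, `q (i+1)` -/
theorem L_q {n i j : ℕ} (hj : j < n) :
    (-(2 * (i : ℝ) + 1)) * q n j 0 + ((n : ℝ) ^ 2 + (i : ℝ) * ((i : ℝ) + 1)) * q n j 1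
      = 1 + ((j : ℝ) - i) * ((j : ℝ) - i - 1) * q n j 1 := by
  have hw := (w_pos hj).ne'
  rw [q_zero, q_one]
  field_simp
  unfold w
  ring

theorem int_prod_nonneg (i j : ℕ) : 0 ≤ ((j : ℝ) - i) * ((j : ℝ) - i - 1) := by
  rcases Nat.lt_or_ge i j with h | h
  · have : (i : ℝ) + 1 ≤ j := by exact_mod_cast h
    exact mul_nonneg (by linarith) (by linarith)
  · have : (j : ℝ) ≤ i := by exact_mod_cast h
    nlinarith

/-- the far set `A = {q 0, ..., q (n-2)}` -/
noncomputable def A (n : ℕ) : Finset (EuclideanSpace ℝ (Fin 2)) := (Finset.range (n - 1)).image (q n)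

/-- segments from the origin -/
noncomputable def Sg (n i : ℕ) : Finset (EuclideanSpace ℝ (Fin 2)) := {0, q n i}

/-- triangles from the origin -/
noncomputable def Tr (n t : ℕ) : Finset (EuclideanSpace ℝ (Fin 2)) := {0, q n (2 * t), q n (2 * t + 1)}

theorem q_inj {n i j : ℕ} (_hi : i < n) (hj : j < n) (h : q n i = q n j) : i = j := by
  have h0 : q n i 0 = q n j 0 := by rw [h]
  have h1 : q n i 1 = q n j 1 := by rw [h]
  rw [q_x, q_x, h1] at h0
  have h2 : (i : ℝ) = (j : ℝ) := mul_right_cancel₀ (q_one_pos hj).ne' h0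
  exact_mod_cast h2

theorem q_ne_zero {n i : ℕ} (hi : i < n) : q n i ≠ 0 := by
  intro h
  have h1 : q n i 1 = 0 := by rw [h]; simp
  exact (q_one_pos hi).ne' h1

theorem A_hull {n : ℕ} (i : ℕ) {v : EuclideanSpace ℝ (Fin 2)}
    (hv : v ∈ convexHull ℝ ((A n : Finset _) : Set (EuclideanSpace ℝ (Fin 2)))) :
    1 ≤ (-(2 * (i : ℝ) + 1)) * v 0 + ((n : ℝ) ^ 2 + (i : ℝ) * ((i : ℝ) + 1)) * v 1 := by
  refine hull_ge _ _ _ _ ?_ v hv
  intro u hu
  simp only [A, Finset.coe_image, Set.mem_image, Finset.coe_range, Set.mem_Iio] at hu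
  obtain ⟨j, hj, rfl⟩ := hu
  have hj' : j < n := by omega
  rw [L_q hj']
  have := mul_nonneg (int_prod_nonneg i j) (q_one_pos hj').le
  linarith

theorem Sg_hull {n i : ℕ} (hi : i < n) {v : EuclideanSpace ℝ (Fin 2)}
    (hv : v ∈ convexHull ℝ ((Sg n i : Finset _) : Set (EuclideanSpace ℝ (Fin 2)))) :
    v 0 = i * v 1 ∧ 0 ≤ v 1 := by
  have h1 := hull_le _ 1 (-(i : ℝ)) 0 (by
    intro u hu
    simp only [Sg, Finset.coe_insert, Finset.coe_singleton, Set.mem_insert_iff,
      Set.mem_singleton_iff] at hu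
    rcases hu with rfl | rfl
    · simp
    · rw [q_x]; linarith) v hv
  have h2 := hull_ge _ 1 (-(i : ℝ)) 0 (by
    intro u hu
    simp only [Sg, Finset.coe_insert, Finset.coe_singleton, Set.mem_insert_iff,
      Set.mem_singleton_iff] at hu
    rcases hu with rfl | rfl
    · simp
    · rw [q_x]; linarith) v hv
  have h3 := hull_ge _ 0 1 0 (by
    intro u hu
    simp only [Sg, Finset.coe_insert, Finset.coe_singleton, Set.mem_insert_iff,
      Set.mem_singleton_iff] at hu
    rcases hu with rfl | rfl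
    · simp
    · have := q_one_pos hi; linarith) v hv
  constructor <;> linarith

theorem Tr_hull {n t : ℕ} (ht : 2 * t + 1 < n) {v : EuclideanSpace ℝ (Fin 2)}
    (hv : v ∈ convexHull ℝ ((Tr n t : Finset _) : Set (EuclideanSpace ℝ (Fin 2)))) :
    ((2 * t : ℕ) : ℝ) * v 1 ≤ v 0 ∧ v 0 ≤ ((2 * t + 1 : ℕ) : ℝ) * v 1 ∧ 0 ≤ v 1 ∧
    (-(2 * ((2 * t : ℕ) : ℝ) + 1)) * v 0 +
      ((n : ℝ) ^ 2 + ((2 * t : ℕ) : ℝ) * (((2 * t : ℕ) : ℝ) + 1)) * v 1 ≤ 1 := by
  have ht0 : 2 * t < n := by omega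
  have key : ∀ u ∈ ((Tr n t : Finset _) : Set (EuclideanSpace ℝ (Fin 2))),
      u = 0 ∨ u = q n (2 * t) ∨ u = q n (2 * t + 1) := by
    intro u hu
    simpa [Tr] using hu
  have c1 : ((2 * t + 1 : ℕ) : ℝ) = ((2 * t : ℕ) : ℝ) + 1 := by push_cast; ring
  have p0 := q_one_pos ht0
  have p1 := q_one_pos ht
  have h1 := hull_le _ (-1) (((2 * t : ℕ) : ℝ)) 0 (by
    intro u hu
    rcases key u hu with rfl | rfl | rfl
    · simp
    · rw [q_x]; linarith
    · rw [q_x, c1]; nlinarith) v hv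
  have h2 := hull_le _ 1 (-((2 * t + 1 : ℕ) : ℝ)) 0 (by
    intro u hu
    rcases key u hu with rfl | rfl | rfl
    · simp
    · rw [q_x, c1]; nlinarith
    · rw [q_x]; linarith) v hv
  have h3 := hull_ge _ 0 1 0 (by
    intro u hu
    rcases key u hu with rfl | rfl | rfl
    · simp
    · linarith
    · linarith) v hv
  have h4 := hull_le _ (-(2 * ((2 * t : ℕ) : ℝ) + 1))
      ((n : ℝ) ^ 2 + ((2 * t : ℕ) : ℝ) * (((2 * t : ℕ) : ℝ) + 1)) 1 (by
    intro u hu
    rcases key u hu with rfl | rfl | rfl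
    · simp
    · rw [L_q ht0]; simp
    · rw [L_q ht, c1]; simp) v hv
  exact ⟨by linarith, by linarith, by linarith, h4⟩

theorem ext2 {u v : EuclideanSpace ℝ (Fin 2)} (h0 : u 0 = v 0) (h1 : u 1 = v 1) : u = v := by
  ext k
  fin_cases k
  · exact h0
  · exact h1

theorem origin_of {v : EuclideanSpace ℝ (Fin 2)} (h1 : v 1 = 0) (h0 : v 0 = 0) : v = 0 := by
  apply ext2
  · simpa using h0
  · simpa using h1

/-- a set of the star -/
def IsStar (n : ℕ) (S : Finset (EuclideanSpace ℝ (Fin 2))) : Prop :=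
  (∃ i, i < n - 1 ∧ S = Sg n i) ∨ (∃ t, t < (n - 1) / 2 ∧ S = Tr n t)

theorem two_seg {n i j : ℕ} (hi : i < n) (hj : j < n) (hij : i ≠ j)
    {v : EuclideanSpace ℝ (Fin 2)}
    (hv : v ∈ convexHull ℝ ((Sg n i : Finset _) : Set (EuclideanSpace ℝ (Fin 2))))
    (hv' : v ∈ convexHull ℝ ((Sg n j : Finset _) : Set (EuclideanSpace ℝ (Fin 2)))) : v = 0 := by
  obtain ⟨a, b⟩ := Sg_hull hi hv
  obtain ⟨a', b'⟩ := Sg_hull hj hv'
  have h : ((i : ℝ) - j) * v 1 = 0 := by linarith
  have hne : (i : ℝ) - j ≠ 0 := by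
    intro h
    apply hij
    have : (i : ℝ) = j := by linarith
    exact_mod_cast this
  have h1 : v 1 = 0 := by
    rcases mul_eq_zero.mp h with h | h
    · exact absurd h hne
    · exact h
  exact origin_of h1 (by rw [a, h1, mul_zero])

theorem two_tri {n s t : ℕ} (hs : 2 * s + 1 < n) (ht : 2 * t + 1 < n) (hst : s ≠ t)
    {v : EuclideanSpace ℝ (Fin 2)}
    (hv : v ∈ convexHull ℝ ((Tr n s : Finset _) : Set (EuclideanSpace ℝ (Fin 2))))
    (hv' : v ∈ convexHull ℝ ((Tr n t : Finset _) : Set (EuclideanSpace ℝ (Fin 2)))) : v = 0 := by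
  obtain ⟨a1, a2, a3, a4⟩ := Tr_hull hs hv
  obtain ⟨b1, b2, b3, b4⟩ := Tr_hull ht hv'
  push_cast at *
  have h1 : v 1 = 0 := by
    rcases Nat.lt_or_gt_of_ne hst with h | h
    · have : (s : ℝ) + 1 ≤ t := by exact_mod_cast h
      nlinarith
    · have : (t : ℝ) + 1 ≤ s := by exact_mod_cast h
      nlinarith
  rw [h1] at a1 a2
  exact origin_of h1 (by linarith)

theorem seg_seg {n i j : ℕ} (hi : i < n) (hj : j < n) (hij : Sg n i ≠ Sg n j)
    {v : EuclideanSpace ℝ (Fin 2)}
    (hv : v ∈ convexHull ℝ ((Sg n i : Finset _) : Set (EuclideanSpace ℝ (Fin 2))))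
    (hv' : v ∈ convexHull ℝ ((Sg n j : Finset _) : Set (EuclideanSpace ℝ (Fin 2)))) : v = 0 :=
  two_seg hi hj (fun h => hij (congrArg (Sg n) h)) hv hv'

theorem tri_tri {n s t : ℕ} (hs : 2 * s + 1 < n) (ht : 2 * t + 1 < n) (hst : Tr n s ≠ Tr n t)
    {v : EuclideanSpace ℝ (Fin 2)}
    (hv : v ∈ convexHull ℝ ((Tr n s : Finset _) : Set (EuclideanSpace ℝ (Fin 2))))
    (hv' : v ∈ convexHull ℝ ((Tr n t : Finset _) : Set (EuclideanSpace ℝ (Fin 2)))) : v = 0 :=
  two_tri hs ht (fun h => hst (congrArg (Tr n) h)) hv hv'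

/-- a segment and a triangle of the star meet the far set only in a point of `P` -/
theorem seg_tri_A {n i t : ℕ} (hi : i < n) (ht : 2 * t + 1 < n)
    {v : EuclideanSpace ℝ (Fin 2)}
    (hv : v ∈ convexHull ℝ ((Sg n i : Finset _) : Set (EuclideanSpace ℝ (Fin 2))))
    (hv' : v ∈ convexHull ℝ ((Tr n t : Finset _) : Set (EuclideanSpace ℝ (Fin 2))))
    (hA : v ∈ convexHull ℝ ((A n : Finset _) : Set (EuclideanSpace ℝ (Fin 2)))) : v = q n i := by
  obtain ⟨a, b⟩ := Sg_hull hi hv
  obtain ⟨b1, b2, b3, b4⟩ := Tr_hull ht hv'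
  have hA2 := A_hull (2 * t) hA
  have hpos : 0 < v 1 := by
    rcases lt_or_eq_of_le b with h | h
    · exact h
    · exfalso
      rw [a, ← h] at hA2
      simp at hA2
      linarith
  have hi1 : ((2 * t : ℕ) : ℝ) ≤ i := by
    rw [a] at b1
    exact le_of_mul_le_mul_right b1 hpos
  have hi2 : (i : ℝ) ≤ ((2 * t + 1 : ℕ) : ℝ) := by
    rw [a] at b2
    exact le_of_mul_le_mul_right b2 hpos
  have hi1' : 2 * t ≤ i := by exact_mod_cast hi1
  have hi2' : i ≤ 2 * t + 1 := by exact_mod_cast hi2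
  have hw := (w_pos hi).ne'
  have hL : v 1 * w n i = 1 := by
    have hLe : (-(2 * ((2 * t : ℕ) : ℝ) + 1)) * v 0 +
      ((n : ℝ) ^ 2 + ((2 * t : ℕ) : ℝ) * (((2 * t : ℕ) : ℝ) + 1)) * v 1 = 1 := le_antisymm b4 hA2
    rw [a] at hLe
    rw [← hLe]
    unfold w
    have : i = 2 * t ∨ i = 2 * t + 1 := by omega
    rcases this with rfl | rfl
    · push_cast; ring
    · push_cast; ring
  have h1 : v 1 = q n i 1 := by
    rw [q_one]
    field_simp
    linarith
  exact ext2 (by rw [a, q_x, h1]) h1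

theorem A_ne_zero {n : ℕ} {v : EuclideanSpace ℝ (Fin 2)}
    (hA : v ∈ convexHull ℝ ((A n : Finset _) : Set (EuclideanSpace ℝ (Fin 2)))) : v ≠ 0 := by
  rintro rfl
  have := A_hull 0 hA
  simp at this
  linarith

/-- determinant test for collinearity -/
theorem not_collinear_of_det {a b c : EuclideanSpace ℝ (Fin 2)}
    (h : (b 0 - a 0) * (c 1 - a 1) - (b 1 - a 1) * (c 0 - a 0) ≠ 0) :
    ¬ Collinear ℝ {a, b, c} := by
  intro hcol
  rw [collinear_iff_of_mem (p₀ := a) (by simp)] at hcol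
  obtain ⟨v, hv⟩ := hcol
  obtain ⟨r, hr⟩ := hv b (by simp)
  obtain ⟨s, hs⟩ := hv c (by simp)
  apply h
  have e1 : b 0 = r * v 0 + a 0 := by rw [hr]; simp
  have e2 : b 1 = r * v 1 + a 1 := by rw [hr]; simp
  have e3 : c 0 = s * v 0 + a 0 := by rw [hs]; simp
  have e4 : c 1 = s * v 1 + a 1 := by rw [hs]; simp
  rw [e1, e2, e3, e4]; ring

theorem det_qqq {n i j k : ℕ} (hi : i < n) (hj : j < n) (hk : k < n)
    (hij : i ≠ j) (hik : i ≠ k) (hjk : j ≠ k) :
    (q n j 0 - q n i 0) * (q n k 1 - q n i 1) - (q n j 1 - q n i 1) * (q n k 0 - q n i 0) ≠ 0 := by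
  have wi := (w_pos hi).ne'
  have wj := (w_pos hj).ne'
  have wk := (w_pos hk).ne'
  have e : (q n j 0 - q n i 0) * (q n k 1 - q n i 1) - (q n j 1 - q n i 1) * (q n k 0 - q n i 0)
      = ((j : ℝ) - i) * ((i : ℝ) - k) * ((j : ℝ) - k) / (w n i * w n j * w n k) := by
    rw [q_zero, q_zero, q_zero, q_one, q_one, q_one]
    field_simp
    unfold w
    ring
  rw [e]
  have a1 : (j : ℝ) - i ≠ 0 := by
    intro h; apply hij; have : (i : ℝ) = j := by linarith
    exact_mod_cast this
  have a2 : (i : ℝ) - k ≠ 0 := by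
    intro h; apply hik; have : (i : ℝ) = k := by linarith
    exact_mod_cast this
  have a3 : (j : ℝ) - k ≠ 0 := by
    intro h; apply hjk; have : (j : ℝ) = k := by linarith
    exact_mod_cast this
  exact div_ne_zero (mul_ne_zero (mul_ne_zero a1 a2) a3) (mul_ne_zero (mul_ne_zero wi wj) wk)

theorem det_qq {n i j : ℕ} (hi : i < n) (hj : j < n) (hij : i ≠ j) :
    q n i 0 * q n j 1 - q n i 1 * q n j 0 ≠ 0 := by
  have p1 := (q_one_pos hi).ne'
  have p2 := (q_one_pos hj).ne'
  rw [q_x, q_x]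
  have a1 : (i : ℝ) - j ≠ 0 := by
    intro h; apply hij; have : (i : ℝ) = j := by linarith
    exact_mod_cast this
  have : (i : ℝ) * q n i 1 * q n j 1 - q n i 1 * ((j : ℝ) * q n j 1)
      = ((i : ℝ) - j) * q n i 1 * q n j 1 := by ring
  rw [this]
  exact mul_ne_zero (mul_ne_zero a1 p1) p2

theorem general_position {n : ℕ} : ∀ a ∈ insert 0 (A n), ∀ b ∈ insert 0 (A n),
    ∀ c ∈ insert 0 (A n), a ≠ b → a ≠ c → b ≠ c → ¬ Collinear ℝ {a, b, c} := by
  intro a ha b hb c hc hab hac hbc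
  have key : ∀ x ∈ insert 0 (A n), x = 0 ∨ ∃ i, i < n ∧ x = q n i := by
    intro x hx
    rw [Finset.mem_insert] at hx
    rcases hx with rfl | hx
    · left; rfl
    · right
      simp only [A, Finset.mem_image, Finset.mem_range] at hx
      obtain ⟨i, hi, rfl⟩ := hx
      exact ⟨i, by omega, rfl⟩
  apply not_collinear_of_det
  rcases key a ha with rfl | ⟨i, hi, rfl⟩ <;> rcases key b hb with rfl | ⟨j, hj, rfl⟩ <;>
    rcases key c hc with rfl | ⟨k, hk, rfl⟩
  · exact absurd rfl hab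
  · exact absurd rfl hab
  · exact absurd rfl hac
  · have hjk : j ≠ k := fun h => hbc (by rw [h])
    have := det_qq hj hk hjk
    simpa using this
  · exact absurd rfl hbc
  · have hik : i ≠ k := fun h => hac (by rw [h])
    have := det_qq hi hk hik
    have e0 : (0 : EuclideanSpace ℝ (Fin 2)) 0 = 0 := by simp
    have e1 : (0 : EuclideanSpace ℝ (Fin 2)) 1 = 0 := by simp
    rw [e0, e1]
    intro h
    apply this
    linarith
  · have hij : i ≠ j := fun h => hab (by rw [h])
    have := det_qq hi hj hij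
    have e0 : (0 : EuclideanSpace ℝ (Fin 2)) 0 = 0 := by simp
    have e1 : (0 : EuclideanSpace ℝ (Fin 2)) 1 = 0 := by simp
    rw [e0, e1]
    intro h
    apply this
    linarith
  · have hij : i ≠ j := fun h => hab (by rw [h])
    have hik : i ≠ k := fun h => hac (by rw [h])
    have hjk : j ≠ k := fun h => hbc (by rw [h])
    exact det_qqq hi hj hk hij hik hjk

/-- the family -/
noncomputable def F (n : ℕ) : Finset (Finset (EuclideanSpace ℝ (Fin 2))) :=
  ((Finset.range (n - 1)).image (Sg n)) ∪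
    (((Finset.range ((n - 1) / 2)).image (Tr n)) ∪ {A n})

theorem mem_F {n : ℕ} {S : Finset (EuclideanSpace ℝ (Fin 2))} (h : S ∈ F n) :
    (∃ i, i < n - 1 ∧ S = Sg n i) ∨ (∃ t, t < (n - 1) / 2 ∧ S = Tr n t) ∨ S = A n := by
  simp only [F, Finset.mem_union, Finset.mem_image, Finset.mem_range, Finset.mem_singleton] at h
  rcases h with ⟨i, hi, rfl⟩ | ⟨t, ht, rfl⟩ | h
  · exact Or.inl ⟨i, hi, rfl⟩
  · exact Or.inr (Or.inl ⟨t, ht, rfl⟩)
  · exact Or.inr (Or.inr h)

theorem card_A (n : ℕ) : (A n).card = n - 1 := by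
  unfold A
  rw [Finset.card_image_of_injOn]
  · simp
  · intro i hi j hj h
    simp only [Finset.coe_range, Set.mem_Iio] at hi hj
    exact q_inj (by omega) (by omega) h

theorem card_Sg {n i : ℕ} (hi : i < n) : (Sg n i).card = 2 := by
  unfold Sg
  rw [Finset.card_insert_of_notMem, Finset.card_singleton]
  rw [Finset.mem_singleton]
  exact (q_ne_zero hi).symm

theorem card_Tr {n t : ℕ} (ht : 2 * t + 1 < n) : (Tr n t).card = 3 := by
  unfold Tr
  rw [Finset.card_insert_of_notMem, Finset.card_insert_of_notMem, Finset.card_singleton]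
  · rw [Finset.mem_singleton]
    intro h
    have := q_inj (by omega) (by omega) h
    omega
  · rw [Finset.mem_insert, Finset.mem_singleton]
    rintro (h | h)
    · exact q_ne_zero (by omega) h.symm
    · exact q_ne_zero (by omega) h.symm

theorem zero_notMem_A (n : ℕ) : (0 : EuclideanSpace ℝ (Fin 2)) ∉ A n := by
  intro h
  simp only [A, Finset.mem_image, Finset.mem_range] at h
  obtain ⟨i, hi, h⟩ := h
  exact q_ne_zero (by omega) h

theorem q_mem_A {n i : ℕ} (hi : i < n - 1) : q n i ∈ A n := by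
  simp only [A, Finset.mem_image, Finset.mem_range]
  exact ⟨i, hi, rfl⟩

theorem Sg_inj {n i j : ℕ} (hi : i < n) (hj : j < n) (h : Sg n i = Sg n j) : i = j := by
  have h1 : q n i ∈ Sg n j := by rw [← h]; simp [Sg]
  simp only [Sg, Finset.mem_insert, Finset.mem_singleton] at h1
  rcases h1 with h1 | h1
  · exact absurd h1 (q_ne_zero hi)
  · exact q_inj hi hj h1

theorem Tr_inj {n s t : ℕ} (hs : 2 * s + 1 < n) (ht : 2 * t + 1 < n) (h : Tr n s = Tr n t) :
    s = t := by
  have h1 : q n (2 * s) ∈ Tr n t := by rw [← h]; simp [Tr]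
  simp only [Tr, Finset.mem_insert, Finset.mem_singleton] at h1
  rcases h1 with h1 | h1 | h1
  · exact absurd h1 (q_ne_zero (by omega))
  · have := q_inj (by omega) (by omega) h1; omega
  · have := q_inj (by omega) (by omega) h1; omega

theorem card_F {n : ℕ} (hn : 4 ≤ n) : (F n).card = n + (n - 1) / 2 := by
  have c1 : ((Finset.range (n - 1)).image (Sg n)).card = n - 1 := by
    rw [Finset.card_image_of_injOn]
    · simp
    · intro i hi j hj h
      simp only [Finset.coe_range, Set.mem_Iio] at hi hj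
      exact Sg_inj (by omega) (by omega) h
  have c2 : ((Finset.range ((n - 1) / 2)).image (Tr n)).card = (n - 1) / 2 := by
    rw [Finset.card_image_of_injOn]
    · simp
    · intro i hi j hj h
      simp only [Finset.coe_range, Set.mem_Iio] at hi hj
      exact Tr_inj (by omega) (by omega) h
  unfold F
  rw [Finset.card_union_of_disjoint, Finset.card_union_of_disjoint, c1, c2,
    Finset.card_singleton]
  · omega
  · rw [Finset.disjoint_left]
    intro S hS hS'
    rw [Finset.mem_singleton] at hS'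
    simp only [Finset.mem_image, Finset.mem_range] at hS
    obtain ⟨t, ht, rfl⟩ := hS
    apply zero_notMem_A n
    rw [← hS']
    simp [Tr]
  · rw [Finset.disjoint_left]
    intro S hS hS'
    simp only [Finset.mem_image, Finset.mem_range] at hS
    obtain ⟨i, hi, rfl⟩ := hS
    rw [Finset.mem_union] at hS'
    rcases hS' with hS' | hS'
    · simp only [Finset.mem_image, Finset.mem_range] at hS'
      obtain ⟨t, ht, h⟩ := hS'
      have a := card_Sg (n := n) (i := i) (by omega)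
      have b := card_Tr (n := n) (t := t) (by omega)
      rw [h, a] at b
      omega
    · rw [Finset.mem_singleton] at hS'
      apply zero_notMem_A n
      rw [← hS']
      simp [Sg]

attribute [local irreducible] Sg Tr A q

/-- For every `n ≥ 4` there are a set `P` of `n` points in the plane, no three of them collinear,
and a family `F` of `n + ⌊(n - 1) / 2⌋ > n` distinct subsets of `P`, each of size strictly between
`1` and `n`, whose convex hulls pairwise intersect while any three of them share only points of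
`P`. -/
theorem main (n : ℕ) (hn : 4 ≤ n) :
    ∃ (P : Finset (EuclideanSpace ℝ (Fin 2))) (F : Finset (Finset (EuclideanSpace ℝ (Fin 2)))),
      P.card = n ∧
      (∀ a ∈ P, ∀ b ∈ P, ∀ c ∈ P, a ≠ b → a ≠ c → b ≠ c → ¬ Collinear ℝ {a, b, c}) ∧
      (∀ S ∈ F, S ⊆ P ∧ 1 < S.card ∧ S.card < n) ∧
      (∀ S ∈ F, ∀ T ∈ F, S ≠ T →
        (convexHull ℝ (S : Set (EuclideanSpace ℝ (Fin 2))) ∩
          convexHull ℝ (T : Set (EuclideanSpace ℝ (Fin 2)))).Nonempty) ∧
      (∀ S ∈ F, ∀ T ∈ F, ∀ U ∈ F, S ≠ T → S ≠ U → T ≠ U →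
        convexHull ℝ (S : Set (EuclideanSpace ℝ (Fin 2))) ∩
          convexHull ℝ (T : Set (EuclideanSpace ℝ (Fin 2))) ∩
          convexHull ℝ (U : Set (EuclideanSpace ℝ (Fin 2))) ⊆
            (P : Set (EuclideanSpace ℝ (Fin 2)))) ∧
      F.card = n + (n - 1) / 2 := by
  classical
  refine ⟨insert 0 (A n), F n, ?_, general_position, ?_, ?_, ?_, card_F hn⟩
  · rw [Finset.card_insert_of_notMem (zero_notMem_A n), card_A]; omega
  · intro S hS
    rcases mem_F hS with ⟨i, hi, rfl⟩ | ⟨t, ht, rfl⟩ | rfl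
    · refine ⟨?_, ?_, ?_⟩
      · intro x hx
        simp only [Sg, Finset.mem_insert, Finset.mem_singleton] at hx
        rcases hx with rfl | rfl
        · exact Finset.mem_insert_self _ _
        · exact Finset.mem_insert_of_mem (q_mem_A hi)
      · rw [card_Sg (by omega)]; omega
      · rw [card_Sg (by omega)]; omega
    · refine ⟨?_, ?_, ?_⟩
      · intro x hx
        simp only [Tr, Finset.mem_insert, Finset.mem_singleton] at hx
        rcases hx with rfl | rfl | rfl
        · exact Finset.mem_insert_self _ _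
        · exact Finset.mem_insert_of_mem (q_mem_A (by omega))
        · exact Finset.mem_insert_of_mem (q_mem_A (by omega))
      · rw [card_Tr (by omega)]; omega
      · rw [card_Tr (by omega)]; omega
    · refine ⟨Finset.subset_insert _ _, ?_, ?_⟩
      · rw [card_A]; omega
      · rw [card_A]; omega
  · -- pairwise
    have z1 : ∀ i, (0 : EuclideanSpace ℝ (Fin 2)) ∈
        convexHull ℝ ((Sg n i : Finset _) : Set (EuclideanSpace ℝ (Fin 2))) := fun i =>
      subset_convexHull ℝ _ (by simp [Sg])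
    have z2 : ∀ t, (0 : EuclideanSpace ℝ (Fin 2)) ∈
        convexHull ℝ ((Tr n t : Finset _) : Set (EuclideanSpace ℝ (Fin 2))) := fun i =>
      subset_convexHull ℝ _ (by simp [Tr])
    have y1 : ∀ i, q n i ∈
        convexHull ℝ ((Sg n i : Finset _) : Set (EuclideanSpace ℝ (Fin 2))) := fun i =>
      subset_convexHull ℝ _ (by simp [Sg])
    have y2 : ∀ t, q n (2 * t) ∈
        convexHull ℝ ((Tr n t : Finset _) : Set (EuclideanSpace ℝ (Fin 2))) := fun i =>
      subset_convexHull ℝ _ (by simp [Tr])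
    have y3 : ∀ i, i < n - 1 → q n i ∈
        convexHull ℝ ((A n : Finset _) : Set (EuclideanSpace ℝ (Fin 2))) := fun i hi =>
      subset_convexHull ℝ _ (q_mem_A hi)
    intro S hS T hT hST
    rcases mem_F hS with ⟨i, hi, rfl⟩ | ⟨t, ht, rfl⟩ | rfl <;>
      rcases mem_F hT with ⟨i', hi', rfl⟩ | ⟨t', ht', rfl⟩ | rfl
    · exact ⟨0, z1 _, z1 _⟩
    · exact ⟨0, z1 _, z2 _⟩
    · exact ⟨q n i, y1 _, y3 _ hi⟩
    · exact ⟨0, z2 _, z1 _⟩
    · exact ⟨0, z2 _, z2 _⟩
    · exact ⟨q n (2 * t), y2 _, y3 _ (by omega)⟩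
    · exact ⟨q n i', y3 _ hi', y1 _⟩
    · exact ⟨q n (2 * t'), y3 _ (by omega), y2 _⟩
    · exact absurd rfl hST
  · -- triples
    have memP0 : (0 : EuclideanSpace ℝ (Fin 2)) ∈
        ((insert 0 (A n) : Finset _) : Set (EuclideanSpace ℝ (Fin 2))) := by simp
    have memPq : ∀ i, i < n - 1 → q n i ∈
        ((insert 0 (A n) : Finset _) : Set (EuclideanSpace ℝ (Fin 2))) := by
      intro i hi
      rw [Finset.mem_coe]
      exact Finset.mem_insert_of_mem (q_mem_A hi)
    intro S hS T hT U hU hST hSU hTU v hv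
    obtain ⟨⟨vS, vT⟩, vU⟩ := hv
    rcases mem_F hS with ⟨i, hi, rfl⟩ | ⟨i, hi, rfl⟩ | rfl <;>
      rcases mem_F hT with ⟨j, hj, rfl⟩ | ⟨j, hj, rfl⟩ | rfl <;>
      rcases mem_F hU with ⟨k, hk, rfl⟩ | ⟨k, hk, rfl⟩ | rfl
    · rw [seg_seg (by omega) (by omega) hST vS vT]; exact memP0
    · rw [seg_seg (by omega) (by omega) hST vS vT]; exact memP0
    · rw [seg_seg (by omega) (by omega) hST vS vT]; exact memP0
    · rw [seg_seg (by omega) (by omega) hSU vS vU]; exact memP0
    · rw [tri_tri (by omega) (by omega) hTU vT vU]; exact memP0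
    · rw [seg_tri_A (by omega) (by omega) vS vT vU]; exact memPq _ hi
    · rw [seg_seg (by omega) (by omega) hSU vS vU]; exact memP0
    · rw [seg_tri_A (by omega) (by omega) vS vU vT]; exact memPq _ hi
    · exact absurd rfl hTU
    · rw [seg_seg (by omega) (by omega) hTU vT vU]; exact memP0
    · rw [tri_tri (by omega) (by omega) hSU vS vU]; exact memP0
    · rw [seg_tri_A (by omega) (by omega) vT vS vU]; exact memPq _ hj
    · rw [tri_tri (by omega) (by omega) hST vS vT]; exact memP0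
    · rw [tri_tri (by omega) (by omega) hST vS vT]; exact memP0
    · rw [tri_tri (by omega) (by omega) hST vS vT]; exact memP0
    · rw [seg_tri_A (by omega) (by omega) vU vS vT]; exact memPq _ hk
    · rw [tri_tri (by omega) (by omega) hSU vS vU]; exact memP0
    · exact absurd rfl hTU
    · rw [seg_seg (by omega) (by omega) hTU vT vU]; exact memP0
    · rw [seg_tri_A (by omega) (by omega) vT vU vS]; exact memPq _ hj
    · exact absurd rfl hSU
    · rw [seg_tri_A (by omega) (by omega) vU vT vS]; exact memPq _ hk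
    · rw [tri_tri (by omega) (by omega) hTU vT vU]; exact memP0
    · exact absurd rfl hSU
    · exact absurd rfl hST
    · exact absurd rfl hST
    · exact absurd rfl hST

end Pool.Agent.H26.SL.A31168
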