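import Mathlib

/-!
Definitions for the anisotropic Cheeger functional of the disk, on the plane `ℂ = ℝ²`
(`z · w = re z re w + im z im w`).
-/

open MeasureTheory Set
open scoped ENNReal

namespace Pool.Agent.H26.SL.AniC

/-- The divergence of a planar vector field. -/
noncomputable def div (φ : ℂ → ℂ) (z : ℂ) : ℝ :=
  (fderiv ℝ φ z 1).re + (fderiv ℝ φ z Complex.I).im

/-- The anisotropic perimeter `P_K(E)`, in its (distributional) dual form
`sup {∫_E div φ : φ ∈ C¹_c(ℝ²; closure K)}`, with values in `[0, ∞]`. -/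
noncomputable def per (K E : Set ℂ) : ℝ≥0∞ :=
  ⨆ (φ : ℂ → ℂ) (_ : ContDiff ℝ 1 φ ∧ HasCompactSupport φ ∧ ∀ z, φ z ∈ closure K),
    ENNReal.ofReal (∫ z in E, div φ z)

/-- The polar set `K° = {z : sup_{w ∈ K} z · w < 1}`. -/
def polarSet (K : Set ℂ) : Set ℂ :=
  {z | sSup ((fun w : ℂ => z.re * w.re + z.im * w.im) '' K) < 1}

/-- The anisotropic Cheeger constant `h_K(Ω) = inf {P_K(E)/|E| : E ⊆ Ω, |E| > 0}`. -/
noncomputable def cheeger (K Ω : Set ℂ) : ℝ≥0∞ :=
  ⨅ (E : Set ℂ) (_ : MeasurableSet E ∧ E ⊆ Ω ∧ volume E ≠ 0), per K E / volume E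

/-- The functional `J_B[K] = h_K(B) |K°|^(1/2)`, `B` being the open unit disk. -/
noncomputable def JJ (K : Set ℂ) : ℝ≥0∞ :=
  cheeger K (Metric.ball 0 1) * volume (polarSet K) ^ (1 / 2 : ℝ)

/-- The class `𝒦₂`: nonempty, open, bounded, convex, centrally symmetric planar sets. -/
def SymConvex (K : Set ℂ) : Prop :=
  K.Nonempty ∧ IsOpen K ∧ Bornology.IsBounded K ∧ Convex ℝ K ∧ ∀ z ∈ K, -z ∈ K

/-- The class `𝒫_n`: members of `𝒦₂` whose closure has exactly `n` extreme points. -/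
def IsGon (n : ℕ) (K : Set ℂ) : Prop :=
  SymConvex K ∧ (extremePoints ℝ (closure K)).encard = n

/-- The regular `n`-gon circumscribed about the unit disk. -/
def regGon (n : ℕ) : Set ℂ :=
  {z | ∀ k : ℕ, z.re * Real.cos (2 * Real.pi * k / n) + z.im * Real.sin (2 * Real.pi * k / n) < 1}

end Pool.Agent.H26.SL.AniC
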