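import Pool.Agent.H25.AniDefs
import Pool.Agent.H26.SL.AniC

/-! Transport of the anisotropic Cheeger functional from `EuclideanSpace ℝ (Fin 2)` to `ℂ`. -/

set_option autoImplicit false

open MeasureTheory Set
open scoped ContDiff ENNReal

namespace Pool.Agent.H26.SL.AniT

open H25Ani

/-- the isometry -/
noncomputable def e : ℂ ≃ₗᵢ[ℝ] V2 := Complex.orthonormalBasisOneI.repr

theorem e_zero (z : ℂ) : e z 0 = z.re := by
  have := Complex.orthonormalBasisOneI_repr_apply z
  exact congrFun this 0

theorem e_one (z : ℂ) : e z 1 = z.im := by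
  have := Complex.orthonormalBasisOneI_repr_apply z
  exact congrFun this 1

theorem re_symm (x : V2) : (e.symm x).re = x 0 := by
  have h := e_zero (e.symm x)
  rw [LinearIsometryEquiv.apply_symm_apply] at h
  exact h.symm

theorem im_symm (x : V2) : (e.symm x).im = x 1 := by
  have h := e_one (e.symm x)
  rw [LinearIsometryEquiv.apply_symm_apply] at h
  exact h.symm

theorem e_of_one : e 1 = EuclideanSpace.single 0 1 := by
  ext i
  fin_cases i
  · have := e_zero 1
    simp at this
    simp [this]
  · have := e_one 1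
    simp at this
    simp [this]

theorem e_of_I : e Complex.I = EuclideanSpace.single 1 1 := by
  ext i
  fin_cases i
  · have := e_zero Complex.I
    simp at this
    simp [this]
  · have := e_one Complex.I
    simp at this
    simp [this]

theorem mp : MeasurePreserving e volume volume := LinearIsometryEquiv.measurePreserving e

theorem emb : MeasurableEmbedding e := e.toHomeomorph.measurableEmbedding

theorem inner_eq (z w : ℂ) : inner ℝ (e z) (e w) = z.re * w.re + z.im * w.im := by
  rw [LinearIsometryEquiv.inner_map_map, Complex.inner]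
  simp
  ring

theorem div_eq (φ : V2 → V2) (z : ℂ) :
    AniC.div (fun w => e.symm (φ (e w))) z = H25Ani.div φ (e z) := by
  have h1 : fderiv ℝ (fun w => e.symm (φ (e w))) z =
      (e.symm.toContinuousLinearEquiv : V2 →L[ℝ] ℂ).comp
        ((fderiv ℝ φ (e z)).comp (e.toContinuousLinearEquiv : ℂ →L[ℝ] V2)) := by
    have h2 := e.symm.toContinuousLinearEquiv.comp_fderiv (f := fun w => φ (e w)) (x := z)
    have h3 := e.toContinuousLinearEquiv.comp_right_fderiv (f := φ) (x := z)
    have h4 : fderiv ℝ (fun w => φ (e w)) z =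
        (fderiv ℝ φ (e z)).comp (e.toContinuousLinearEquiv : ℂ →L[ℝ] V2) := h3
    rw [← h4]
    exact h2
  unfold AniC.div H25Ani.div
  rw [h1, Fin.sum_univ_two]
  change (e.symm (fderiv ℝ φ (e z) (e 1))).re + (e.symm (fderiv ℝ φ (e z) (e Complex.I))).im = _
  rw [re_symm, im_symm, e_of_one, e_of_I]

theorem closure_preimage (K : Set V2) : closure (e ⁻¹' K) = e ⁻¹' closure K :=
  (e.toHomeomorph.preimage_closure K).symm

theorem fields_iff (K : Set V2) (φ : V2 → V2) :
    φ ∈ Fields K ↔ (ContDiff ℝ 1 (fun w => e.symm (φ (e w))) ∧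
      HasCompactSupport (fun w => e.symm (φ (e w))) ∧
      ∀ z, e.symm (φ (e z)) ∈ closure (e ⁻¹' K)) := by
  unfold Fields
  rw [mem_ofPred_eq]
  refine and_congr ?_ (and_congr ?_ ?_)
  · constructor
    · intro h
      exact e.symm.contDiff.comp (h.comp e.contDiff)
    · intro h
      have h2 : ContDiff ℝ 1 (fun x => e (e.symm (φ (e (e.symm x))))) :=
        e.contDiff.comp (h.comp e.symm.contDiff)
      simpa using h2
  · constructor
    · intro h
      have h1 : HasCompactSupport (φ ∘ e) := h.comp_homeomorph e.toHomeomorph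
      exact h1.comp_left (g := e.symm) (map_zero _)
    · intro h
      have h1 : HasCompactSupport ((fun w => e.symm (φ (e w))) ∘ e.symm) :=
        h.comp_homeomorph e.symm.toHomeomorph
      have h2 := h1.comp_left (g := e) (map_zero _)
      have h3 : (⇑e ∘ (fun w => e.symm (φ (e w))) ∘ ⇑e.symm) = φ := by
        funext x
        simp
      rwa [h3] at h2
  · rw [closure_preimage]
    constructor
    · intro h z
      rw [mem_preimage, LinearIsometryEquiv.apply_symm_apply]
      exact h _
    · intro h x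
      have := h (e.symm x)
      rw [mem_preimage, LinearIsometryEquiv.apply_symm_apply,
        LinearIsometryEquiv.apply_symm_apply] at this
      exact this

theorem int_eq (E : Set V2) (φ : V2 → V2) :
    ∫ z in e ⁻¹' E, AniC.div (fun w => e.symm (φ (e w))) z = ∫ x in E, H25Ani.div φ x := by
  simp only [div_eq]
  exact mp.setIntegral_preimage_emb emb (fun x => H25Ani.div φ x) E

theorem per_eq (K E : Set V2) : AniC.per (e ⁻¹' K) (e ⁻¹' E) = H25Ani.per K E := by
  apply le_antisymm
  · refine iSup₂_le fun ψ hψ => ?_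
    have e1 : (fun w => e.symm ((fun x => e (ψ (e.symm x))) (e w))) = ψ := by
      funext w
      simp
    have h1 : (fun x => e (ψ (e.symm x))) ∈ Fields K := by
      rw [fields_iff]
      refine ⟨?_, ?_, ?_⟩
      · rw [e1]; exact hψ.1
      · rw [e1]; exact hψ.2.1
      · intro z
        have := congrFun e1 z
        simp only at this
        rw [this]
        exact hψ.2.2 z
    have h2 := int_eq E (fun x => e (ψ (e.symm x)))
    rw [e1] at h2
    rw [h2]
    exact le_iSup₂_of_le (f := fun φ (_ : φ ∈ Fields K) =>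
      ENNReal.ofReal (∫ x in E, H25Ani.div φ x)) _ h1 le_rfl
  · refine iSup₂_le fun φ hφ => ?_
    rw [← int_eq E φ]
    exact le_iSup₂_of_le (f := fun (ψ : ℂ → ℂ) (_ : ContDiff ℝ 1 ψ ∧ HasCompactSupport ψ ∧
      ∀ z, ψ z ∈ closure (e ⁻¹' K)) => ENNReal.ofReal (∫ z in e ⁻¹' E, AniC.div ψ z)) _
      ((fields_iff K φ).1 hφ) le_rfl

theorem vol_eq (S : Set V2) : volume (e ⁻¹' S) = volume S := mp.measure_preimage_emb emb S

theorem polar_eq (K : Set V2) : AniC.polarSet (e ⁻¹' K) = e ⁻¹' polarSet K := by
  ext z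
  unfold AniC.polarSet polarSet polarNorm
  rw [mem_ofPred_eq, mem_preimage, mem_ofPred_eq]
  have : (fun w : ℂ => z.re * w.re + z.im * w.im) '' (e ⁻¹' K) =
      (fun y => inner ℝ (e z) y) '' K := by
    ext r
    constructor
    · rintro ⟨w, hw, rfl⟩
      exact ⟨e w, hw, inner_eq z w⟩
    · rintro ⟨y, hy, rfl⟩
      refine ⟨e.symm y, ?_, ?_⟩
      · rw [mem_preimage, LinearIsometryEquiv.apply_symm_apply]; exact hy
      · have := inner_eq z (e.symm y)
        rw [LinearIsometryEquiv.apply_symm_apply] at this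
        exact this.symm
  rw [this]

theorem preim_symm (E : Set ℂ) : e ⁻¹' (e.symm ⁻¹' E) = E := by
  ext z
  simp

theorem cheeger_eq (K Ω : Set V2) : AniC.cheeger (e ⁻¹' K) (e ⁻¹' Ω) = H25Ani.cheeger K Ω := by
  apply le_antisymm
  · refine le_iInf₂ fun E hE => ?_
    rw [← per_eq, ← vol_eq E]
    refine iInf₂_le_of_le (e ⁻¹' E) ⟨emb.measurable hE.1, preimage_mono hE.2.1, ?_⟩ le_rfl
    rw [vol_eq]
    exact hE.2.2
  · refine le_iInf₂ fun E hE => ?_
    have h1 : E = e ⁻¹' (e.symm ⁻¹' E) := (preim_symm E).symm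
    have hm : MeasurableSet (e.symm ⁻¹' E) := e.symm.toHomeomorph.measurableEmbedding.measurable hE.1
    have h2 : AniC.per (e ⁻¹' K) E = H25Ani.per K (e.symm ⁻¹' E) := by
      rw [← per_eq, preim_symm]
    have h3 : volume E = volume (e.symm ⁻¹' E) := by
      rw [← vol_eq, preim_symm]
    rw [h2, h3]
    refine iInf₂_le_of_le (e.symm ⁻¹' E) ⟨hm, ?_, ?_⟩ le_rfl
    · intro x hx
      have := hE.2.1 hx
      rw [mem_preimage, LinearIsometryEquiv.apply_symm_apply] at this
      exact this
    · rw [← h3]
      exact hE.2.2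

theorem JJ_eq (K : Set V2) : AniC.JJ (e ⁻¹' K) = H25Ani.JJ K := by
  unfold AniC.JJ H25Ani.JJ
  rw [polar_eq, vol_eq, ← cheeger_eq]
  congr 2
  rw [LinearIsometryEquiv.preimage_ball, map_zero]

theorem symConvex_iff (K : Set V2) : AniC.SymConvex (e ⁻¹' K) ↔ SymConvex K := by
  unfold AniC.SymConvex SymConvex
  refine and_congr ?_ (and_congr ?_ (and_congr ?_ (and_congr ?_ ?_)))
  · constructor
    · rintro ⟨z, hz⟩
      exact ⟨e z, hz⟩
    · rintro ⟨x, hx⟩
      exact ⟨e.symm x, by rw [mem_preimage, LinearIsometryEquiv.apply_symm_apply]; exact hx⟩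
  · exact e.toHomeomorph.isOpen_preimage
  · constructor
    · intro h
      have h1 := e.lipschitz.isBounded_image h
      rwa [image_preimage_eq _ e.surjective] at h1
    · intro h
      have h1 := e.symm.lipschitz.isBounded_image h
      have h2 : e.symm '' K = e ⁻¹' K := by
        ext z
        constructor
        · rintro ⟨x, hx, rfl⟩
          rw [mem_preimage, LinearIsometryEquiv.apply_symm_apply]
          exact hx
        · intro hz
          exact ⟨e z, hz, by simp⟩
      rwa [h2] at h1
  · constructor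
    · intro h
      have h1 := h.is_linear_preimage (f := e.symm) e.symm.toLinearEquiv.isLinear
      have h2 : e.symm ⁻¹' (e ⁻¹' K) = K := by
        ext x
        simp
      rwa [h2] at h1
    · intro h
      exact h.is_linear_preimage (f := e) e.toLinearEquiv.isLinear
  · constructor
    · intro h x hx
      have := h (e.symm x) (by rw [mem_preimage, LinearIsometryEquiv.apply_symm_apply]; exact hx)
      rw [mem_preimage, map_neg, LinearIsometryEquiv.apply_symm_apply] at this
      exact this
    · intro h z hz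
      rw [mem_preimage, map_neg]
      exact h _ hz

theorem extreme_eq (K : Set V2) :
    extremePoints ℝ (closure (e ⁻¹' K)) = e ⁻¹' extremePoints ℝ (closure K) := by
  rw [closure_preimage]
  have h2 : ∀ S : Set V2, e.symm '' S = e ⁻¹' S := by
    intro S
    ext z
    constructor
    · rintro ⟨x, hx, rfl⟩
      rw [mem_preimage, LinearIsometryEquiv.apply_symm_apply]
      exact hx
    · intro hz
      exact ⟨e z, hz, by simp⟩
  rw [← h2, ← h2]
  exact (image_extremePoints e.symm.toLinearEquiv (closure K)).symm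

theorem isGon_iff (n : ℕ) (K : Set V2) : AniC.IsGon n (e ⁻¹' K) ↔ IsGon n K := by
  unfold AniC.IsGon IsGon
  rw [symConvex_iff, extreme_eq]
  have : (e ⁻¹' extremePoints ℝ (closure K)).encard = (extremePoints ℝ (closure K)).encard := by
    have h2 : e.symm '' (extremePoints ℝ (closure K)) = e ⁻¹' extremePoints ℝ (closure K) := by
      ext z
      constructor
      · rintro ⟨x, hx, rfl⟩
        rw [mem_preimage, LinearIsometryEquiv.apply_symm_apply]
        exact hx
      · intro hz
        exact ⟨e z, hz, by simp⟩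
    rw [← h2]
    exact e.symm.injective.encard_image _
  rw [this]

theorem regGon_eq (n : ℕ) : AniC.regGon n = e ⁻¹' regGon n := by
  ext z
  unfold AniC.regGon regGon
  rw [mem_ofPred_eq, mem_preimage, mem_ofPred_eq]
  simp only [e_zero, e_one]

/-- transport of the case `n = 4` -/
theorem square (h : ∀ P : Set V2, IsGon 4 P → H25Ani.JJ (regGon 4) ≤ H25Ani.JJ P) (P : Set ℂ)
    (hP : AniC.IsGon 4 P) : AniC.JJ (AniC.regGon 4) ≤ AniC.JJ P := by
  have h1 : P = e ⁻¹' (e.symm ⁻¹' P) := (preim_symm P).symm
  rw [h1, isGon_iff] at hP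
  rw [h1, regGon_eq, JJ_eq, JJ_eq]
  exact h _ hP

/-- transport of the disproof -/
theorem notOptimal (n : ℕ) (h : ∃ P : Set V2, IsGon n P ∧ H25Ani.JJ P < H25Ani.JJ (regGon n)) :
    ∃ P : Set ℂ, AniC.IsGon n P ∧ AniC.JJ P < AniC.JJ (AniC.regGon n) := by
  obtain ⟨P, hP, hlt⟩ := h
  refine ⟨e ⁻¹' P, (isGon_iff n P).2 hP, ?_⟩
  rw [regGon_eq, JJ_eq, JJ_eq]
  exact hlt

end Pool.Agent.H26.SL.AniT
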