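import Mathlib

/-!
# Definitions for the completion problem `M_C = [[A, C], [0, B]]` (MP_632fda_an), short form

Operators enter only through their values; subspaces are sets.
-/

set_option autoImplicit false

namespace Pool.Agent.H26.SL.Drz

variable {E H K : Type*}

/-- The ascent: least `k` with `N(T^(k+1)) = N(T^k)`, or `∞`. -/
noncomputable def asc [AddCommGroup E] (T : E → E) : ℕ∞ :=
  ⨅ (k : ℕ) (_ : {x | T^[k + 1] x = 0} = {x | T^[k] x = 0}), (k : ℕ∞)

/-- The descent: least `k` with `R(T^(k+1)) = R(T^k)`, or `∞`. -/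
noncomputable def dsc (T : E → E) : ℕ∞ :=
  ⨅ (k : ℕ) (_ : Set.range T^[k + 1] = Set.range T^[k]), (k : ℕ∞)

/-- Drazin invertible: finite ascent and finite descent. -/
def IsDrazin [AddCommGroup E] (T : E → E) : Prop := asc T < ⊤ ∧ dsc T < ⊤

/-- The operator matrix `M_C = [[A, C], [0, B]]` on `H ⊕ K`. -/
def blockOp [AddCommGroup H] (A : H → H) (C : K → H) (B : K → K) : H × K → H × K :=
  fun z => (A z.1 + C z.2, B z.2)

section

variable [NormedAddCommGroup E]

/-- Left Drazin invertible: finite ascent `a` and `R(T^(a+1))` closed. -/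
def IsLeftDrazin (T : E → E) : Prop :=
  ∃ a : ℕ, asc T = a ∧ IsClosed (Set.range T^[a + 1])

/-- Right Drazin invertible: finite descent `d` and `R(T^d)` closed. -/
def IsRightDrazin (T : E → E) : Prop :=
  ∃ d : ℕ, dsc T = d ∧ IsClosed (Set.range T^[d])

variable [InnerProductSpace ℂ E]

/-- The orthogonal complement. -/
def perp (S : Set E) : Set E := {y | ∀ s ∈ S, inner ℂ s y = 0}

/-- Dimension of a closed subspace `M` (given as a set) of a separable Hilbert space, as an element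
of `{0, 1, 2, …, ∞}`. -/
noncomputable def hdim (M : Set E) : ℕ∞ :=
  Cardinal.toENat (Module.rank ℂ (Submodule.span ℂ M))

end

variable [NormedAddCommGroup H] [InnerProductSpace ℂ H] [NormedAddCommGroup K]
  [InnerProductSpace ℂ K]

/-- Condition (iii): `d(A - λ) = n(B - λ)` for all `0 < |λ| < δ`, some `δ > 0`. -/
def CondIII (A : H → H) (B : K → K) : Prop :=
  ∃ δ : ℝ, 0 < δ ∧ ∀ μ : ℂ, 0 < ‖μ‖ → ‖μ‖ < δ →
    hdim (perp (Set.range fun x => A x - μ • x)) = hdim {x | B x - μ • x = 0}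

/-- `𝒮 = R(A) + N(A^p)`. -/
def spS (A : H → H) (p : ℕ) : Set H := {y | ∃ x z, A^[p] z = 0 ∧ y = A x + z}

/-- `𝒯 = closure of N(B) ∩ R(B^p)`. -/
def spT (B : K → K) (p : ℕ) : Set K := closure ({x | B x = 0} ∩ Set.range B^[p])

/-- Condition (E): `𝒮` is closed and `dim 𝒮ᗮ = dim 𝒯`. -/
def CondE (A : H → H) (B : K → K) (p : ℕ) : Prop :=
  IsClosed (spS A p) ∧ hdim (perp (spS A p)) = hdim (spT B p)

/-- `C` (a bounded operator in the statements) is admissible: it is a bijection of `𝒯` onto `𝒮ᗮ`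
(so `C = J` on `𝒯` with `J` bounded and invertible), and `C = 0` on `𝒯ᗮ`. -/
def IsAdmissible (A : H → H) (B : K → K) (p : ℕ) (C : K → H) : Prop :=
  Set.BijOn C (spT B p) (perp (spS A p)) ∧ ∀ x ∈ perp (spT B p), C x = 0

end Pool.Agent.H26.SL.Drz
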