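import Pool.Agent.H26.DrazinSufficiency

/-!
# MP_632fda_an: exactly which pairs `(A, B)` have a Drazin invertible completion `M_C`
-/

namespace Pool.Agent.H26.SL.DrzCompletionIff

open Pool.Agent.H26.Drazin
open scoped InnerProductSpace InnerProduct

variable {E : Type*} [NormedAddCommGroup E] [InnerProductSpace ℂ E] [CompleteSpace E]

/-- Closed range theorem, in the form needed here. -/
theorem exists_adjoint_preimage {T : E →L[ℂ] E} (hT : IsClosed (T.range : Set E)) {y : E}
    (hy : y ∈ (T.ker)ᗮ) : ∃ x, (ContinuousLinearMap.adjoint T) x = y := by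
  have : CompleteSpace T.range := hT.completeSpace_coe
  obtain ⟨g, hg⟩ := exists_rightInverse T.rangeRestrict T.toLinearMap.surjective_rangeRestrict
  have hg' : ∀ r : T.range, T (g r) = r := fun r => congrArg Subtype.val (hg r)
  let G : E →L[ℂ] E := g ∘L T.range.orthogonalProjectionOnto
  have hG : ∀ z, T (G (T z)) = T z := by
    intro z
    have h1 : T.range.orthogonalProjectionOnto (T z) = ⟨T z, ⟨z, rfl⟩⟩ :=
      Submodule.orthogonalProjectionOnto_mem_subspace_eq_self (⟨T z, ⟨z, rfl⟩⟩ : T.range)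
    change T (g (T.range.orthogonalProjectionOnto (T z))) = T z
    rw [h1, hg']
  refine ⟨(ContinuousLinearMap.adjoint G) y, ?_⟩
  apply ext_inner_right ℂ
  intro z
  rw [ContinuousLinearMap.adjoint_inner_left, ContinuousLinearMap.adjoint_inner_left]
  have h2 : G (T z) - z ∈ T.ker := by
    change T (G (T z) - z) = 0
    rw [map_sub, hG, sub_self]
  have h3 := (Submodule.mem_orthogonal' _ _).1 hy _ h2
  rw [inner_sub_right, sub_eq_zero] at h3
  exact h3

theorem dsc_adjoint_of_isLeftDrazin {A : E →L[ℂ] E} (h : IsLeftDrazin A) :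
    dsc (ContinuousLinearMap.adjoint A) < ⊤ := by
  obtain ⟨a, ha, hcl⟩ := h
  have hk : (A ^ (a + 1)).ker = (A ^ a).ker := asc_le_iff.1 ha.le
  have hpow : ∀ n : ℕ, (ContinuousLinearMap.adjoint A) ^ n = ContinuousLinearMap.adjoint (A ^ n) := by
    intro n
    rw [← ContinuousLinearMap.star_eq_adjoint, ← ContinuousLinearMap.star_eq_adjoint, star_pow]
  rw [dsc_lt_top_iff]
  refine ⟨a, le_antisymm (range_pow_anti _ (Nat.le_succ a)) ?_⟩
  intro x hx
  obtain ⟨y, rfl⟩ := mem_range_pow.1 hx
  rw [mem_range_pow, hpow (a + 1)]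
  apply exists_adjoint_preimage hcl
  rw [hk, Submodule.mem_orthogonal']
  intro u hu
  rw [hpow, ContinuousLinearMap.adjoint_inner_left, show (A ^ a) u = 0 from hu, inner_zero_right]

/-- **Characterization of the pairs with a Drazin invertible completion.** -/
theorem main (H K : Type*)
    [NormedAddCommGroup H] [InnerProductSpace ℂ H] [CompleteSpace H]
    [TopologicalSpace.SeparableSpace H]
    [NormedAddCommGroup K] [InnerProductSpace ℂ K] [CompleteSpace K]
    [TopologicalSpace.SeparableSpace K]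
    (A : H →L[ℂ] H) (B : K →L[ℂ] K) :
    ((∃ C : K →L[ℂ] H, IsDrazin (blockOp A C B)) ↔
      dsc (ContinuousLinearMap.adjoint A) < ⊤ ∧ dsc B < ⊤ ∧ CondIII A B) ∧
    (IsLeftDrazin A → dsc (ContinuousLinearMap.adjoint A) < ⊤) :=
  ⟨exists_completion_iff H K A B, dsc_adjoint_of_isLeftDrazin⟩

end Pool.Agent.H26.SL.DrzCompletionIff
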