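import Pool.Agent.H26.DrazinSufficiency

/-!
# MP_632fda_an: without (E), the hypotheses of Q2 do not give any Drazin invertible completion
-/

namespace Pool.Agent.H26.SL.DrzNoCompletion

open Pool.Agent.H26.Drazin
open scoped InnerProductSpace InnerProduct

/-- coordinates of a vector cannot stay bounded away from zero -/
theorem coord_small {E : Type*} [NormedAddCommGroup E] [InnerProductSpace ℂ E]
    (c : HilbertBasis ℕ ℂ E) (x : E) {ε : ℝ} (hε : 0 < ε) (n0 : ℕ)
    (h : ∀ n ≥ n0, ε ≤ ‖⟪c n, x⟫_ℂ‖) : False := by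
  obtain ⟨m, hm⟩ := exists_nat_gt (‖x‖ ^ 2 / ε ^ 2)
  have h1 := c.orthonormal.sum_inner_products_le (x := x) (s := Finset.Ico n0 (n0 + m))
  have h2 : (m : ℝ) * ε ^ 2 ≤ ∑ i ∈ Finset.Ico n0 (n0 + m), ‖⟪c i, x⟫_ℂ‖ ^ 2 := by
    have h3 : ∑ i ∈ Finset.Ico n0 (n0 + m), ε ^ 2 ≤
        ∑ i ∈ Finset.Ico n0 (n0 + m), ‖⟪c i, x⟫_ℂ‖ ^ 2 := by
      apply Finset.sum_le_sum
      intro i hi
      rw [Finset.mem_Ico] at hi
      exact pow_le_pow_left₀ hε.le (h i hi.1) 2
    simpa using h3
  have h4 : (m : ℝ) * ε ^ 2 ≤ ‖x‖ ^ 2 := h2.trans h1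
  have h5 : (0 : ℝ) < ε ^ 2 := by positivity
  rw [div_lt_iff₀ h5] at hm
  linarith

theorem hdim_bot {F : Type*} [NormedAddCommGroup F] [InnerProductSpace ℂ F] :
    hdim (⊥ : Submodule ℂ F) = 0 := by
  unfold hdim
  simp

/-- **The weakening of Q2 fails if (E) is not assumed.** -/
theorem main (H K : Type*)
    [NormedAddCommGroup H] [InnerProductSpace ℂ H] [CompleteSpace H]
    [TopologicalSpace.SeparableSpace H] (hH : ¬ FiniteDimensional ℂ H)
    [NormedAddCommGroup K] [InnerProductSpace ℂ K] [CompleteSpace K]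
    [TopologicalSpace.SeparableSpace K] (hK : ¬ FiniteDimensional ℂ K) :
    ∃ (A : H →L[ℂ] H) (B : K →L[ℂ] K),
      asc A < ⊤ ∧ IsRightDrazin B ∧ CondIII A B ∧
      ∀ C : K →L[ℂ] H, ¬ IsDrazin (blockOp A C B) := by
  classical
  obtain ⟨c⟩ := exists_nat_hilbertBasis hH
  obtain ⟨A', -, hA'⟩ := exists_wco c (fun n => n + 1) (fun a b h => by simpa using h)
    (fun n => (1 / 2 : ℂ) ^ n) (fun n => by
      rw [norm_pow]
      apply pow_le_one₀ (norm_nonneg _)
      norm_num)
  have hcc : ∀ m n : ℕ, ⟪c m, c n⟫_ℂ = if m = n then (1 : ℂ) else 0 := fun m n =>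
    orthonormal_iff_ite.1 c.orthonormal m n
  have hA'c : ∀ n, A' (c (n + 1)) = (1 / 2 : ℂ) ^ n • c n := by
    intro n
    apply coord_ext c
    intro k
    rw [hA', inner_smul_right, hcc, hcc]
    by_cases h : k = n
    · rw [if_pos (by omega), if_pos h, h]
    · rw [if_neg (by omega), if_neg h, mul_zero, mul_zero]
  have hA'0 : A' (c 0) = 0 := by
    apply coord_ext c
    intro k
    rw [hA', hcc, if_neg (by omega), mul_zero, inner_zero_right]
  set A : H →L[ℂ] H := ContinuousLinearMap.adjoint A' with hA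
  have hconj : ∀ n : ℕ, starRingEnd ℂ ((1 / 2 : ℂ) ^ n) = (1 / 2 : ℂ) ^ n := by
    intro n
    rw [map_pow]
    congr 1
    rw [map_div₀, map_one]
    congr 1
    exact Complex.conj_ofNat 2
  have hAcoord : ∀ x n, ⟪c (n + 1), A x⟫_ℂ = (1 / 2 : ℂ) ^ n * ⟪c n, x⟫_ℂ := by
    intro x n
    rw [hA, ContinuousLinearMap.adjoint_inner_right, hA'c, inner_smul_left, hconj]
  have hAcoord0 : ∀ x, ⟪c 0, A x⟫_ℂ = 0 := by
    intro x
    rw [hA, ContinuousLinearMap.adjoint_inner_right, hA'0, inner_zero_left]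
  have hhalf : ∀ n : ℕ, ((1 / 2 : ℂ)) ^ n ≠ 0 := fun n => pow_ne_zero _ (by norm_num)
  have hAinj : ∀ x, A x = 0 → x = 0 := by
    intro x hx
    apply coord_ext c
    intro n
    have h1 := hAcoord x n
    rw [hx, inner_zero_right] at h1
    rw [inner_zero_right]
    exact (mul_eq_zero.1 h1.symm).resolve_left (hhalf n)
  have hAc : ∀ n, A (c n) = (1 / 2 : ℂ) ^ n • c (n + 1) := by
    intro n
    apply coord_ext c
    intro k
    rw [inner_smul_right]
    cases k with
    | zero => rw [hAcoord0, hcc, if_neg (by omega), mul_zero]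
    | succ k =>
      rw [hAcoord, hcc, hcc]
      by_cases h : k = n
      · rw [if_pos h, if_pos (by omega), h]
      · rw [if_neg h, if_neg (by omega), mul_zero, mul_zero]
  refine ⟨A, 1, ?_, ⟨0, ?_, ?_⟩, ?_, ?_⟩
  · rw [asc_lt_top_iff]
    refine ⟨0, le_antisymm ?_ (ker_pow_mono _ (Nat.le_succ 0))⟩
    intro x hx
    rw [mem_ker_pow, zero_add, pow_one] at hx
    rw [mem_ker_pow, pow_zero]
    exact hAinj x hx
  · apply le_antisymm
    · apply dsc_le_of_range_eq
      rw [one_pow, one_pow]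
    · simp
  · have h1 : (((1 : K →L[ℂ] K) ^ 0).range : Set K) = Set.univ := by
      ext x
      simp only [Set.mem_univ, iff_true]
      exact ⟨x, by simp⟩
    rw [h1]
    exact isClosed_univ
  · -- (iii): both sides vanish for `0 < |μ| < 1`
    refine ⟨1, one_pos, fun μ hμ0 hμ1 => ?_⟩
    have hμne : μ ≠ 0 := norm_pos_iff.1 hμ0
    have h1 : (A - μ • (1 : H →L[ℂ] H)).rangeᗮ = ⊥ := by
      rw [ContinuousLinearMap.orthogonal_range]
      have hadj : ContinuousLinearMap.adjoint (A - μ • (1 : H →L[ℂ] H)) =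
          A' - (starRingEnd ℂ μ) • (1 : H →L[ℂ] H) := by
        rw [map_sub, hA, ContinuousLinearMap.adjoint_adjoint]
        congr 1
        rw [map_smulₛₗ]
        congr 1
        exact ContinuousLinearMap.adjoint_id
      rw [hadj]
      set ν : ℂ := starRingEnd ℂ μ with hν
      have hνne : ν ≠ 0 := by
        rw [hν]
        exact (map_ne_zero _).2 hμne
      rw [eq_bot_iff]
      intro x hx
      have hx1 : A' x = ν • x := by
        have : A' x - ν • x = 0 := hx
        exact sub_eq_zero.1 this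
      have hrec : ∀ n, (1 / 2 : ℂ) ^ n * ⟪c (n + 1), x⟫_ℂ = ν * ⟪c n, x⟫_ℂ := by
        intro n
        rw [← hA', hx1, inner_smul_right]
      -- norms
      have hrecn : ∀ n, (1 / 2 : ℝ) ^ n * ‖⟪c (n + 1), x⟫_ℂ‖ = ‖ν‖ * ‖⟪c n, x⟫_ℂ‖ := by
        intro n
        have h2 := congrArg norm (hrec n)
        rw [norm_mul, norm_mul, norm_pow] at h2
        have h15 : ‖(1 / 2 : ℂ)‖ = 1 / 2 := by norm_num
        rw [h15] at h2
        exact h2
      have hνpos : 0 < ‖ν‖ := norm_pos_iff.2 hνne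
      obtain ⟨n0, hn0⟩ : ∃ n0 : ℕ, (1 / 2 : ℝ) ^ n0 < ‖ν‖ :=
        exists_pow_lt_of_lt_one hνpos (by norm_num)
      have hgrow : ∀ n ≥ n0, ‖⟪c n, x⟫_ℂ‖ ≤ ‖⟪c (n + 1), x⟫_ℂ‖ := by
        intro n hn
        have h3 : (1 / 2 : ℝ) ^ n ≤ ‖ν‖ :=
          (pow_le_pow_of_le_one (by norm_num) (by norm_num) hn).trans hn0.le
        have h4 : (1 / 2 : ℝ) ^ n * ‖⟪c n, x⟫_ℂ‖ ≤ (1 / 2 : ℝ) ^ n * ‖⟪c (n + 1), x⟫_ℂ‖ := by
          rw [hrecn]
          exact mul_le_mul_of_nonneg_right h3 (norm_nonneg _)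
        exact le_of_mul_le_mul_left h4 (by positivity)
      have hgrow' : ∀ m : ℕ, ‖⟪c n0, x⟫_ℂ‖ ≤ ‖⟪c (n0 + m), x⟫_ℂ‖ := by
        intro m
        induction m with
        | zero => exact le_rfl
        | succ m ih => exact ih.trans (hgrow (n0 + m) (by omega))
      have hz0 : ⟪c n0, x⟫_ℂ = 0 := by
        by_contra hne
        apply coord_small c x (norm_pos_iff.2 hne) n0
        intro n hn
        obtain ⟨m, rfl⟩ := Nat.exists_eq_add_of_le hn
        exact hgrow' m
      have hup : ∀ m : ℕ, ⟪c (n0 + m), x⟫_ℂ = 0 := by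
        intro m
        induction m with
        | zero => exact hz0
        | succ m ih =>
          have h5 := hrec (n0 + m)
          rw [ih, mul_zero] at h5
          exact (mul_eq_zero.1 h5).resolve_left (hhalf _)
      have hdown : ∀ m : ℕ, m ≤ n0 → ⟪c (n0 - m), x⟫_ℂ = 0 := by
        intro m
        induction m with
        | zero => intro _; exact hz0
        | succ m ih =>
          intro hm
          have h5 := hrec (n0 - (m + 1))
          rw [show n0 - (m + 1) + 1 = n0 - m by omega, ih (by omega), mul_zero] at h5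
          exact (mul_eq_zero.1 h5.symm).resolve_left hνne
      change x = 0
      apply coord_ext c
      intro n
      rw [inner_zero_right]
      rcases le_total n0 n with h6 | h6
      · obtain ⟨m, rfl⟩ := Nat.exists_eq_add_of_le h6
        exact hup m
      · have := hdown (n0 - n) (by omega)
        rwa [show n0 - (n0 - n) = n by omega] at this
    have h2 : ((1 : K →L[ℂ] K) - μ • (1 : K →L[ℂ] K)).ker = ⊥ := by
      rw [eq_bot_iff]
      intro x hx
      have hx1 : x - μ • x = 0 := hx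
      have hx2 : (1 - μ) • x = 0 := by rw [sub_smul, one_smul]; exact hx1
      have hne : (1 - μ) ≠ 0 := by
        intro h0
        have : μ = 1 := (sub_eq_zero.1 h0).symm
        rw [this, norm_one] at hμ1
        exact lt_irrefl _ hμ1
      exact (smul_eq_zero.1 hx2).resolve_left hne
    rw [h1, h2, hdim_bot, hdim_bot]
  · intro C hC
    have hnec := (necessity hC).1
    rw [hA, ContinuousLinearMap.adjoint_adjoint] at hnec
    obtain ⟨q, hq⟩ := exists_of_dsc_lt_top hnec
    have hq' : ((ContinuousLinearMap.adjoint A) ^ (q + 1)).range =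
        ((ContinuousLinearMap.adjoint A) ^ q).range := by
      rw [hA, ContinuousLinearMap.adjoint_adjoint]
      exact hq
    obtain ⟨r, hr0, hr⟩ := exists_bound_of_dsc_adjoint hq'
    have hpow : ∀ (m n : ℕ), ∃ k : ℂ, k ≠ 0 ∧ (A ^ m) (c n) = k • c (n + m) := by
      intro m n
      induction m with
      | zero => exact ⟨1, one_ne_zero, by simp⟩
      | succ m ih =>
        obtain ⟨k, hk, hkm⟩ := ih
        refine ⟨k * (1 / 2 : ℂ) ^ (n + m), mul_ne_zero hk (hhalf _), ?_⟩
        rw [pow_apply_succ, hkm, map_smul, hAc, smul_smul, add_assoc]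
    obtain ⟨n, hn⟩ : ∃ n : ℕ, (1 / 2 : ℝ) ^ n < 1 / (r + 1) :=
      exists_pow_lt_of_lt_one (by positivity) (by norm_num)
    obtain ⟨k, hk, hkm⟩ := hpow q n
    have h1 := hr (c n)
    rw [pow_apply_succ, hkm, map_smul, hAc, norm_smul, norm_smul, norm_smul, norm_pow,
      c.orthonormal.1, c.orthonormal.1] at h1
    have h15 : ‖(1 / 2 : ℂ)‖ = 1 / 2 := by norm_num
    rw [h15] at h1
    have hkpos : 0 < ‖k‖ := norm_pos_iff.2 hk
    have h2 : (1 / 2 : ℝ) ^ (n + q) ≤ (1 / 2 : ℝ) ^ n :=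
      pow_le_pow_of_le_one (by norm_num) (by norm_num) (by omega)
    have h3 : r * (1 / 2 : ℝ) ^ (n + q) < 1 := by
      calc r * (1 / 2 : ℝ) ^ (n + q) ≤ r * (1 / 2 : ℝ) ^ n := mul_le_mul_of_nonneg_left h2 hr0
        _ ≤ r * (1 / (r + 1)) := mul_le_mul_of_nonneg_left hn.le hr0
        _ < 1 := by
          rw [mul_one_div, div_lt_one (by positivity)]
          linarith
    nlinarith

end Pool.Agent.H26.SL.DrzNoCompletion
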