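import Pool.Agent.H26.DrazinL2

/-!
# MP_632fda_an, Q1: a negative answer

For all infinite dimensional separable complex Hilbert spaces `H`, `K` there are `A`, `B` that
satisfy every hypothesis of Q1, for which (E) holds and admissible `C` exist for every
`p ≥ max{1, asc A, dsc B}`, while `M_C` is not Drazin invertible for any admissible `C`.
-/

namespace Pool.Agent.H26.SL.DrzQ1False

open Pool.Agent.H26.Drazin
open scoped InnerProductSpace ENNReal InnerProduct

/-- weights -/
noncomputable def wt (n : ℕ) : ℂ := if Even n then 1 else (1 / 2) ^ n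

theorem wt_even (n : ℕ) : wt (2 * n) = 1 := by
  unfold wt
  rw [if_pos (even_two_mul n)]

theorem wt_ne_zero (n : ℕ) : wt n ≠ 0 := by
  unfold wt
  split_ifs
  · exact one_ne_zero
  · exact pow_ne_zero _ (by norm_num)

theorem wt_odd (n : ℕ) : wt (2 * n + 1) = (1 / 2) ^ (2 * n + 1) := by
  unfold wt
  rw [if_neg]
  simp

theorem wt_norm_le (n : ℕ) : ‖wt n‖ ≤ 1 := by
  unfold wt
  split_ifs
  · simp
  · rw [norm_pow]
    apply pow_le_one₀ (norm_nonneg _)
    norm_num

section Ops

variable {E : Type*} [NormedAddCommGroup E] [InnerProductSpace ℂ E] [CompleteSpace E]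

/-- The even part operator `W`, its adjoint `V` and the diagonal operator `D`. -/
theorem exists_ops (b : HilbertBasis ℕ ℂ E) : ∃ W V D : E →L[ℂ] E,
    V = ContinuousLinearMap.adjoint W ∧ (∀ x, ‖W x‖ ≤ ‖x‖) ∧
    (∀ x n, ⟪b n, W x⟫_ℂ = ⟪b (2 * n), x⟫_ℂ) ∧
    (∀ x n, ⟪b (2 * n), V x⟫_ℂ = ⟪b n, x⟫_ℂ) ∧
    (∀ x n, ⟪b (2 * n + 1), V x⟫_ℂ = 0) ∧
    (∀ n, W (b (2 * n + 1)) = 0) ∧
    (∀ x n, ⟪b n, D x⟫_ℂ = wt n * ⟪b n, x⟫_ℂ) := by
  classical
  obtain ⟨W, hWn, hW⟩ := exists_wco b (fun n => 2 * n) (fun a c h => by simpa using h)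
    (fun _ => 1) (fun _ => by simp)
  obtain ⟨D, -, hD⟩ := exists_wco b id Function.injective_id wt wt_norm_le
  have hW' : ∀ x n, ⟪b n, W x⟫_ℂ = ⟪b (2 * n), x⟫_ℂ := by
    intro x n
    rw [hW, one_mul]
  have hbb : ∀ m n : ℕ, ⟪b m, b n⟫_ℂ = if m = n then (1 : ℂ) else 0 := by
    intro m n
    exact orthonormal_iff_ite.1 b.orthonormal m n
  have hWe : ∀ n, W (b (2 * n)) = b n := by
    intro n
    apply coord_ext b
    intro k
    rw [hW', hbb, hbb]
    by_cases h : k = n
    · simp [h]
    · rw [if_neg h, if_neg (by omega)]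
  have hWo : ∀ n, W (b (2 * n + 1)) = 0 := by
    intro n
    apply coord_ext b
    intro k
    rw [hW', hbb, if_neg (by omega), inner_zero_right]
  refine ⟨W, ContinuousLinearMap.adjoint W, D, rfl, hWn, hW', ?_, ?_, hWo, ?_⟩
  · intro x n
    rw [ContinuousLinearMap.adjoint_inner_right, hWe]
  · intro x n
    rw [ContinuousLinearMap.adjoint_inner_right, hWo, inner_zero_left]
  · intro x n
    exact hD x n

end Ops

section Dim

variable {E : Type*} [NormedAddCommGroup E] [InnerProductSpace ℂ E]

theorem hdim_eq_top_of_injective {F : Type*} [NormedAddCommGroup F] [InnerProductSpace ℂ F]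
    {M : Submodule ℂ E} {N : Submodule ℂ F} (hM : hdim M = ⊤) (f : M →ₗ[ℂ] N)
    (hf : Function.Injective f) : hdim N = ⊤ := by
  unfold hdim at hM ⊢
  rw [Cardinal.toENat_eq_top] at hM ⊢
  have h1 := LinearMap.lift_rank_le_of_injective f hf
  have h2 : Cardinal.lift Cardinal.aleph0 ≤ Cardinal.lift (Module.rank ℂ M) :=
    Cardinal.lift_le.2 hM
  rw [Cardinal.lift_aleph0] at h2
  have h3 := h2.trans h1
  rwa [Cardinal.aleph0_le_lift] at h3

theorem hdim_eq_top_of_orthonormal {M : Submodule ℂ E} {v : ℕ → E} (hv : Orthonormal ℂ v)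
    (hM : ∀ n, v n ∈ M) : hdim M = ⊤ := by
  unfold hdim
  rw [Cardinal.toENat_eq_top]
  have hli : LinearIndependent ℂ (fun n => (⟨v n, hM n⟩ : M)) := by
    have := hv.linearIndependent
    rw [← LinearMap.linearIndependent_iff M.subtype (Submodule.ker_subtype M)]
    exact this
  have := hli.cardinal_lift_le_rank
  simpa using this

end Dim


section Main

variable {E : Type*} [NormedAddCommGroup E] [InnerProductSpace ℂ E] [CompleteSpace E]

/-- The kernel of `W` is infinite dimensional. -/
theorem hdim_ker_W (b : HilbertBasis ℕ ℂ E) {W : E →L[ℂ] E}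
    (hWo : ∀ n, W (b (2 * n + 1)) = 0) : hdim W.ker = ⊤ := by
  apply hdim_eq_top_of_orthonormal (v := fun n => b (2 * n + 1))
  · exact b.orthonormal.comp (fun n => 2 * n + 1) (fun a c h => by simpa using h)
  · intro n
    exact hWo n

theorem norm_smul_lt {V : E →L[ℂ] E} (hV : ‖V‖ ≤ 1) {μ : ℂ} (hμ : ‖μ‖ < 1) : ‖μ • V‖ < 1 := by
  rw [norm_smul]
  calc ‖μ‖ * ‖V‖ ≤ ‖μ‖ * 1 := mul_le_mul_of_nonneg_left hV (norm_nonneg _)
    _ < 1 := by rw [mul_one]; exact hμ

/-- resolvent of `V`: a bounded `R` with `R = 1 + μ V R` and `R` injective. -/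
theorem exists_res {V : E →L[ℂ] E} (hV : ‖V‖ ≤ 1) {μ : ℂ} (hμ : ‖μ‖ < 1) :
    ∃ R : E →L[ℂ] E, (∀ x, R x = x + μ • V (R x)) ∧ Function.Injective R := by
  let u := Units.oneSub (μ • V) (norm_smul_lt hV hμ)
  have hu : (u : E →L[ℂ] E) = 1 - μ • V := rfl
  refine ⟨(↑u⁻¹ : E →L[ℂ] E), ?_, ?_⟩
  · intro x
    have h1 : (u : E →L[ℂ] E) * (↑u⁻¹ : E →L[ℂ] E) = 1 := u.mul_inv
    have h2 := congrArg (fun T : E →L[ℂ] E => T x) h1
    simp only [mul_apply_eq_comp, one_apply_eq_self] at h2
    rw [hu] at h2
    simp only [sub_apply, one_apply_eq_self, smul_apply] at h2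
    rw [sub_eq_iff_eq_add] at h2
    exact h2
  · intro x y hxy
    have h1 : (u : E →L[ℂ] E) * (↑u⁻¹ : E →L[ℂ] E) = 1 := u.mul_inv
    have h2 := congrArg (fun T : E →L[ℂ] E => T x) h1
    have h3 := congrArg (fun T : E →L[ℂ] E => T y) h1
    simp only [mul_apply_eq_comp, one_apply_eq_self] at h2 h3
    rw [← h2, ← h3]
    exact congrArg _ hxy

end Main

/-- **Q1 is false.** -/
theorem main (H K : Type*)
    [NormedAddCommGroup H] [InnerProductSpace ℂ H] [CompleteSpace H]
    [TopologicalSpace.SeparableSpace H] (hH : ¬ FiniteDimensional ℂ H)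
    [NormedAddCommGroup K] [InnerProductSpace ℂ K] [CompleteSpace K]
    [TopologicalSpace.SeparableSpace K] (hK : ¬ FiniteDimensional ℂ K) :
    ∃ (A : H →L[ℂ] H) (B : K →L[ℂ] K),
      IsLeftDrazin A ∧ dsc B < ⊤ ∧ CondIII A B ∧
      ∀ p : ℕ, 1 ≤ p → asc A ≤ p → dsc B ≤ p →
        CondE A B p ∧ (∃ C : K →L[ℂ] H, IsAdmissible A B p C) ∧
        ∀ C : K →L[ℂ] H, IsAdmissible A B p C → ¬ IsDrazin (blockOp A C B) := by
  classical
  obtain ⟨b⟩ := exists_nat_hilbertBasis hK
  obtain ⟨c⟩ := exists_nat_hilbertBasis hH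
  obtain ⟨W, V, D, hVW, hWn, hW, hVe, hVo, hWo, hD⟩ := exists_ops b
  obtain ⟨W', A, -, hAW', hW'n, hW', hAe, hAo, hW'o, -⟩ := exists_ops c
  -- basic identities in `K`
  have hWV : ∀ x, W (V x) = x := by
    intro x
    apply coord_ext b
    intro n
    rw [hW, hVe]
  have hW'A : ∀ x, W' (A x) = x := by
    intro x
    apply coord_ext c
    intro n
    rw [hW', hAe]
  have hDinj : ∀ x, D x = 0 → x = 0 := by
    intro x hx
    apply coord_ext b
    intro n
    have := hD x n
    rw [hx, inner_zero_right] at this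
    rw [inner_zero_right]
    exact (mul_eq_zero.1 this.symm).resolve_left (wt_ne_zero n)
  have hDV : ∀ x, D (V x) = V x := by
    intro x
    apply coord_ext b
    intro n
    rw [hD]
    rcases Nat.even_or_odd' n with ⟨k, rfl | rfl⟩
    · rw [wt_even, one_mul]
    · rw [hVo, mul_zero]
  have hVn : ‖V‖ ≤ 1 := by
    rw [hVW, LinearIsometryEquiv.norm_map]
    exact W.opNorm_le_bound zero_le_one (fun x => by rw [one_mul]; exact hWn x)
  have hAn : ‖A‖ ≤ 1 := by
    rw [hAW', LinearIsometryEquiv.norm_map]
    exact W'.opNorm_le_bound zero_le_one (fun x => by rw [one_mul]; exact hW'n x)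
  set B : K →L[ℂ] K := D ∘L W with hBdef
  have hB : ∀ x, B x = D (W x) := fun x => rfl
  have hBV : ∀ x, B (V x) = D x := by
    intro x
    rw [hB, hWV]
  have hWD : ∀ x, W (D x) = W x := by
    intro x
    apply coord_ext b
    intro n
    rw [hW, hD, wt_even, one_mul, hW]
  have hBD : ∀ x, B (D x) = B x := by
    intro x
    rw [hB, hWD, ← hB]
  have hBBV : ∀ x, B (B (V x)) = B x := by
    intro x
    rw [hBV, hBD]
  have hkerB : B.ker = W.ker := by
    apply le_antisymm
    · intro x hx
      exact hDinj _ hx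
    · intro x hx
      change D (W x) = 0
      rw [show W x = 0 from hx, map_zero]
  have hBran : (B ^ (1 + 1)).range = (B ^ 1).range := by
    apply le_antisymm (range_pow_anti B (by norm_num))
    intro x hx
    obtain ⟨y, rfl⟩ := mem_range_pow.1 hx
    rw [mem_range_pow]
    refine ⟨V y, ?_⟩
    rw [pow_succ, pow_one, mul_apply_eq_comp, hBBV]
  have hdscB : dsc B ≤ (1 : ℕ) := dsc_le_of_range_eq hBran
  have hrange : ∀ p : ℕ, 1 ≤ p → (B ^ p).range = (B ^ 1).range := by
    intro p hp
    obtain ⟨m, rfl⟩ := Nat.exists_eq_add_of_le hp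
    exact range_pow_stable hBran m
  have hspT : ∀ p : ℕ, 1 ≤ p → spT B p = W.ker := by
    intro p hp
    apply le_antisymm
    · unfold spT
      apply Submodule.topologicalClosure_minimal _ (inf_le_left.trans hkerB.le)
      exact W.isClosed_ker
    · intro x hx
      refine mem_closure_of_tendsto (b.hasSum_repr x) (Filter.Eventually.of_forall ?_)
      intro s
      rw [SetLike.mem_coe]
      refine sum_mem ?_
      intro i _
      rw [b.repr_apply_apply]
      rcases Nat.even_or_odd' i with ⟨k, rfl | rfl⟩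
      · rw [← hW, show W x = 0 from hx, inner_zero_right, zero_smul]
        exact Submodule.zero_mem _
      · apply Submodule.smul_mem
        refine ⟨?_, ?_⟩
        · change b (2 * k + 1) ∈ B.ker
          rw [hkerB]
          exact hWo k
        · change b (2 * k + 1) ∈ (B ^ p).range
          rw [hrange p hp, mem_range_pow]
          refine ⟨V ((wt (2 * k + 1))⁻¹ • b (2 * k + 1)), ?_⟩
          rw [pow_one, hBV, map_smul]
          have hDb : D (b (2 * k + 1)) = wt (2 * k + 1) • b (2 * k + 1) := by
            apply coord_ext b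
            intro n
            rw [hD, inner_smul_right]
            have hbb : ∀ m n : ℕ, ⟪b m, b n⟫_ℂ = if m = n then (1 : ℂ) else 0 := by
              intro m n
              exact orthonormal_iff_ite.1 b.orthonormal m n
            rw [hbb]
            split_ifs with h
            · rw [h]
            · rw [mul_zero, mul_zero]
          rw [hDb, smul_smul, inv_mul_cancel₀ (wt_ne_zero _), one_smul]
  -- basic facts on `A`
  have hAinj : Function.Injective A := by
    intro x y hxy
    rw [← hW'A x, ← hW'A y, hxy]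
  have hkerA : ∀ p : ℕ, (A ^ p).ker = ⊥ := by
    intro p
    induction p with
    | zero =>
      rw [eq_bot_iff]
      intro x hx
      rw [mem_ker_pow, pow_zero] at hx
      exact hx
    | succ p ih =>
      rw [eq_bot_iff]
      intro x hx
      rw [mem_ker_pow, pow_succ, mul_apply_eq_comp, ← mem_ker_pow, ih] at hx
      have h1 : A x = 0 := hx
      exact hAinj (h1.trans (map_zero A).symm)
  have hascA : asc A = (0 : ℕ) := by
    have : asc A ≤ (0 : ℕ) := asc_le_of_ker_eq (by rw [hkerA, hkerA])
    exact le_antisymm this (by simp)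
  have hclA : IsClosed (A.range : Set H) := by
    have : (A.range : Set H) = {y | A (W' y) = y} := by
      ext y
      constructor
      · rintro ⟨x, rfl⟩
        change A (W' (A x)) = A x
        rw [hW'A]
      · intro hy
        exact ⟨W' y, hy⟩
    rw [this]
    exact isClosed_eq (A.continuous.comp W'.continuous) continuous_id
  have hspS : ∀ p : ℕ, spS A p = A.range := by
    intro p
    unfold spS
    rw [hkerA, sup_bot_eq]
  have horth : (A.range)ᗮ = W'.ker := by
    rw [ContinuousLinearMap.orthogonal_range, hAW', ContinuousLinearMap.adjoint_adjoint]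
  have hdimW : hdim W.ker = ⊤ := hdim_ker_W b hWo
  have hdimW' : hdim W'.ker = ⊤ := hdim_ker_W c hW'o
  refine ⟨A, B, ⟨0, hascA, ?_⟩, ?_, ?_, ?_⟩
  · rw [zero_add, pow_one]
    exact hclA
  · exact lt_of_le_of_lt hdscB (ENat.natCast_lt_top 1)
  · -- condition (iii)
    refine ⟨1, one_pos, fun μ hμ0 hμ1 => ?_⟩
    have hμne : μ ≠ 0 := norm_pos_iff.1 hμ0
    have h1 : hdim (A - μ • (1 : H →L[ℂ] H)).rangeᗮ = ⊤ := by
      rw [ContinuousLinearMap.orthogonal_range]
      have hadj : ContinuousLinearMap.adjoint (A - μ • (1 : H →L[ℂ] H)) =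
          W' - (starRingEnd ℂ μ) • (1 : H →L[ℂ] H) := by
        rw [map_sub, hAW', ContinuousLinearMap.adjoint_adjoint]
        congr 1
        rw [map_smulₛₗ]
        congr 1
        exact ContinuousLinearMap.adjoint_id
      rw [hadj]
      set ν : ℂ := starRingEnd ℂ μ with hν
      have hν1 : ‖ν‖ < 1 := by rw [hν, RCLike.norm_conj]; exact hμ1
      obtain ⟨R, hR, hRinj⟩ := exists_res hAn hν1
      have hmem : ∀ e ∈ W'.ker, R e ∈ (W' - ν • (1 : H →L[ℂ] H)).ker := by
        intro e he
        change W' (R e) - ν • (R e) = 0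
        conv_lhs => rw [hR e]
        rw [map_add, show W' e = 0 from he, zero_add, map_smul, hW'A, ← hR e, sub_self]
      refine hdim_eq_top_of_injective hdimW'
        ((R : H →ₗ[ℂ] H).restrict hmem) ?_
      intro x y hxy
      have := congrArg Subtype.val hxy
      exact Subtype.ext (hRinj this)
    have h2 : hdim (B - μ • (1 : K →L[ℂ] K)).ker = ⊤ := by
      obtain ⟨R, hR, hRinj⟩ := exists_res hVn hμ1
      -- `e ↦ R (V e) + μ⁻¹ D e`
      let S : K →L[ℂ] K := R ∘L V + μ⁻¹ • D
      have hS : ∀ e, S e = R (V e) + μ⁻¹ • D e := fun e => rfl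
      have hWR : ∀ e, W (R (V e)) = e + μ • R (V e) := by
        intro e
        conv_lhs => rw [hR (V e)]
        rw [map_add, map_smul, hWV, hWV]
      have hRV : ∀ e, R (V e) = V (W (R (V e))) := by
        intro e
        rw [hWR, map_add, map_smul]
        exact hR (V e)
      have hDR : ∀ e, D (R (V e)) = R (V e) := by
        intro e
        rw [hRV e, hDV]
      have hmem : ∀ e ∈ W.ker, S e ∈ (B - μ • (1 : K →L[ℂ] K)).ker := by
        intro e he
        have he0 : W e = 0 := he
        change B (S e) - μ • (S e) = 0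
        rw [hS, map_add, map_smul, hBD, hB e, he0, map_zero, smul_zero, add_zero, hB, hWR,
          map_add, map_smul, hDR, smul_add, smul_smul, mul_inv_cancel₀ hμne, one_smul]
        abel
      refine hdim_eq_top_of_injective hdimW ((S : K →ₗ[ℂ] K).restrict hmem) ?_
      rw [← LinearMap.ker_eq_bot, eq_bot_iff]
      intro e he
      have he0 : W (e : K) = 0 := e.2
      have h3 : S (e : K) = 0 := congrArg Subtype.val he
      rw [hS] at h3
      -- apply `W`
      have h4 : (e : K) + μ • R (V e) = 0 := by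
        have := congrArg W h3
        rw [map_add, map_smul, hWD, he0, smul_zero, add_zero, hWR, map_zero] at this
        exact this
      have h5 : μ • R (V (e : K)) + D (e : K) = 0 := by
        have := congrArg (fun x => μ • x) h3
        simp only [smul_add, smul_smul, mul_inv_cancel₀ hμne, one_smul, smul_zero] at this
        exact this
      have h6 : D (e : K) = (e : K) := by
        have h7 : D (e : K) = - (μ • R (V (e : K))) := by
          rw [eq_neg_iff_add_eq_zero, add_comm]; exact h5
        have h8 : (e : K) = - (μ • R (V (e : K))) := by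
          rw [eq_neg_iff_add_eq_zero]; exact h4
        rw [h7, ← h8]
      have h9 : (e : K) = 0 := by
        apply coord_ext b
        intro n
        rw [inner_zero_right]
        rcases Nat.even_or_odd' n with ⟨k, rfl | rfl⟩
        · rw [← hW, he0, inner_zero_right]
        · have h10 := hD (e : K) (2 * k + 1)
          rw [h6, wt_odd] at h10
          have h11 : (1 - (1 / 2 : ℂ) ^ (2 * k + 1)) * ⟪b (2 * k + 1), (e : K)⟫_ℂ = 0 := by
            rw [sub_mul, one_mul, ← h10, sub_self]
          rcases mul_eq_zero.1 h11 with h12 | h12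
          · exfalso
            have h13 : ((1 / 2 : ℂ)) ^ (2 * k + 1) = 1 := (sub_eq_zero.1 h12).symm
            have h14 : ‖((1 / 2 : ℂ)) ^ (2 * k + 1)‖ = 1 := by rw [h13]; simp
            rw [norm_pow] at h14
            have h15 : ‖(1 / 2 : ℂ)‖ = 1 / 2 := by norm_num
            rw [h15] at h14
            have h16 : (1 / 2 : ℝ) ^ (2 * k + 1) < 1 :=
              pow_lt_one₀ (by norm_num) (by norm_num) (by omega)
            linarith
          · exact h12
      exact Subtype.ext h9
    rw [h1, h2]
  · intro p hp _ _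
    have hclosed : IsClosed (spS A p : Set H) := by
      rw [hspS]
      exact hclA
    refine ⟨⟨hclosed, ?_⟩, ?_, ?_⟩
    · rw [hspS, horth, hspT p hp, hdimW, hdimW']
    · -- an admissible operator exists
      let U : K ≃ₗᵢ[ℂ] H := b.repr.trans c.repr.symm
      have hU : ∀ x n, ⟪c n, U x⟫_ℂ = ⟪b n, x⟫_ℂ := by
        intro x n
        rw [← b.repr_apply_apply, ← c.repr_apply_apply]
        change (c.repr (c.repr.symm (b.repr x)) : ∀ _ : ℕ, ℂ) n = _
        rw [LinearIsometryEquiv.apply_symm_apply]
      have hUW : ∀ x, W' (U x) = U (W x) := by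
        intro x
        apply coord_ext c
        intro n
        rw [hW', hU, hU, hW]
      have hmem1 : ∀ x : spT B p, U (x : K) ∈ (spS A p)ᗮ := by
        intro x
        have hx : W (x : K) = 0 := (hspT p hp).le x.2
        rw [hspS, horth]
        change W' (U (x : K)) = 0
        rw [hUW, hx, map_zero]
      have hmem2 : ∀ y : ((spS A p)ᗮ : Submodule ℂ H), U.symm (y : H) ∈ spT B p := by
        intro y
        have hy : W' (y : H) = 0 := by
          have h1 : (spS A p)ᗮ = W'.ker := by rw [hspS, horth]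
          exact h1.le y.2
        rw [hspT p hp]
        change W (U.symm (y : H)) = 0
        apply U.injective
        rw [← hUW, LinearIsometryEquiv.apply_symm_apply, hy, map_zero]
      let J : spT B p ≃L[ℂ] ((spS A p)ᗮ : Submodule ℂ H) :=
        ContinuousLinearEquiv.equivOfInverse
          ((U.toContinuousLinearEquiv.toContinuousLinearMap ∘L (spT B p).subtypeL).codRestrict
            _ hmem1)
          ((U.symm.toContinuousLinearEquiv.toContinuousLinearMap ∘L
            ((spS A p)ᗮ).subtypeL).codRestrict _ hmem2)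
          (fun x => Subtype.ext (U.symm_apply_apply (x : K)))
          (fun y => Subtype.ext (U.apply_symm_apply (y : H)))
      have hcT : IsClosed (spT B p : Set K) := Submodule.isClosed_topologicalClosure _
      have : CompleteSpace (spT B p) := hcT.completeSpace_coe
      refine ⟨U.toContinuousLinearEquiv.toContinuousLinearMap ∘L (spT B p).starProjection, J, ?_, ?_⟩
      · intro t
        change U ((spT B p).starProjection (t : K)) = U (t : K)
        rw [Submodule.starProjection_eq_self_iff.2 t.2]
      · intro x hx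
        change U ((spT B p).starProjection x) = 0
        rw [(Submodule.starProjection_apply_eq_zero_iff _).2 hx, map_zero]
    · -- no admissible operator gives a Drazin invertible completion
      intro C hC hDr
      obtain ⟨J, hJ, h0⟩ := hC
      have hCorth : ∀ x ∈ B.ker, C x ∈ (A.range)ᗮ ∧ (C x = 0 → x = 0) := by
        intro x hx
        have hx' : x ∈ spT B p := by
          rw [hspT p hp, ← hkerB]
          exact hx
        have h1 := hJ ⟨x, hx'⟩
        constructor
        · have h2 := (J ⟨x, hx'⟩).2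
          rw [← h1, hspS] at h2
          exact h2
        · intro h3
          change C x = _ at h1
          rw [h3] at h1
          have h4 : J ⟨x, hx'⟩ = 0 := Subtype.ext h1.symm
          have h5 : (⟨x, hx'⟩ : spT B p) = 0 := by
            apply J.injective
            rw [h4, map_zero]
          exact congrArg Subtype.val h5
      have hinj : Function.Injective (blockOp A C B) := by
        rw [injective_iff_map_eq_zero]
        intro z hz
        have hz1 : A z.fst + C z.snd = 0 := by
          have := congrArg WithLp.fst hz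
          rw [blockOp_fst] at this
          exact this
        have hz2 : B z.snd = 0 := by
          have := congrArg WithLp.snd hz
          rw [blockOp_snd] at this
          exact this
        obtain ⟨h1, h2⟩ := hCorth z.snd hz2
        have h3 : A z.fst = 0 := by
          have h4 : A z.fst ∈ (A.range)ᗮ := by
            have : A z.fst = - C z.snd := by rw [eq_neg_iff_add_eq_zero]; exact hz1
            rw [this]
            exact Submodule.neg_mem _ h1
          exact inner_self_eq_zero.1 ((Submodule.mem_orthogonal _ _).1 h4 _ ⟨z.fst, rfl⟩)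
        have h5 : z.fst = 0 := hAinj (h3.trans (map_zero A).symm)
        have h6 : z.snd = 0 := by
          apply h2
          rw [h3, zero_add] at hz1
          exact hz1
        exact withLp_ext h5 h6
      have hsurj := surjective_of_injective_of_dsc hinj hDr.2
      have hBsurj : Function.Surjective B := by
        intro y
        obtain ⟨z, hz⟩ := hsurj (WithLp.toLp 2 ((0 : H), y))
        refine ⟨z.snd, ?_⟩
        have := congrArg WithLp.snd hz
        rw [blockOp_snd] at this
        exact this
      obtain ⟨r, hr, hpre⟩ := B.exists_preimage_norm_le hBsurj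
      -- choose `k` with `2 ^ (2 k + 1) > r`
      obtain ⟨k, hk⟩ : ∃ k : ℕ, r < (2 : ℝ) ^ k := pow_unbounded_of_one_lt r (by norm_num)
      obtain ⟨x, hx, hxn⟩ := hpre (b (2 * k + 1))
      have h1 := hD (W x) (2 * k + 1)
      rw [← hB, hx, hW, wt_odd] at h1
      have hbb : ⟪b (2 * k + 1), b (2 * k + 1)⟫_ℂ = 1 := by
        have := orthonormal_iff_ite.1 b.orthonormal (2 * k + 1) (2 * k + 1)
        simpa using this
      rw [hbb] at h1
      have hnb : ∀ n, ‖b n‖ = 1 := b.orthonormal.1
      have h2 : ‖⟪b (2 * (2 * k + 1)), x⟫_ℂ‖ ≤ r := by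
        calc ‖⟪b (2 * (2 * k + 1)), x⟫_ℂ‖ ≤ ‖b (2 * (2 * k + 1))‖ * ‖x‖ := norm_inner_le_norm _ _
          _ = ‖x‖ := by rw [hnb, one_mul]
          _ ≤ r * ‖b (2 * k + 1)‖ := hxn
          _ = r := by rw [hnb, mul_one]
      have h3 : (1 : ℝ) = (1 / 2) ^ (2 * k + 1) * ‖⟪b (2 * (2 * k + 1)), x⟫_ℂ‖ := by
        have := congrArg norm h1
        rw [norm_one, norm_mul, norm_pow] at this
        have h15 : ‖(1 / 2 : ℂ)‖ = 1 / 2 := by norm_num
        rw [h15] at this
        exact this
      have h4 : (1 : ℝ) ≤ (1 / 2) ^ (2 * k + 1) * r := by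
        calc (1 : ℝ) = (1 / 2) ^ (2 * k + 1) * ‖⟪b (2 * (2 * k + 1)), x⟫_ℂ‖ := h3
          _ ≤ (1 / 2) ^ (2 * k + 1) * r := mul_le_mul_of_nonneg_left h2 (by positivity)
      have h5 : (1 / 2 : ℝ) ^ (2 * k + 1) ≤ (1 / 2) ^ k :=
        pow_le_pow_of_le_one (by norm_num) (by norm_num) (by omega)
      have h6 : (1 / 2 : ℝ) ^ k * 2 ^ k = 1 := by
        rw [← mul_pow]
        norm_num
      have h7 : (1 : ℝ) < 1 := by
        calc (1 : ℝ) ≤ (1 / 2) ^ (2 * k + 1) * r := h4
          _ ≤ (1 / 2) ^ k * r := mul_le_mul_of_nonneg_right h5 hr.le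
          _ < (1 / 2) ^ k * 2 ^ k := mul_lt_mul_of_pos_left hk (by positivity)
          _ = 1 := h6
      exact lt_irrefl _ h7

end Pool.Agent.H26.SL.DrzQ1False
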