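import Pool.Agent.H26.DrazinBasic

/-!
# MP_632fda_an, Q2: a positive answer

If `asc(A) < ∞`, `B` is right Drazin invertible and (E) holds for the chosen `p`,
then `M_C` is Drazin invertible for every admissible `C` (condition (iii) is not even used).
-/

namespace Pool.Agent.H26.SL.DrzQ2True

open Pool.Agent.H26.Drazin
open scoped InnerProductSpace

variable {H K : Type*} [NormedAddCommGroup H] [InnerProductSpace ℂ H] [CompleteSpace H]
  [NormedAddCommGroup K] [InnerProductSpace ℂ K] [CompleteSpace K]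

theorem hasProj_spT (B : K →L[ℂ] K) (p : ℕ) : (spT B p).HasOrthogonalProjection := by
  have : IsClosed (spT B p : Set K) := Submodule.isClosed_topologicalClosure _
  have : CompleteSpace (spT B p) := this.completeSpace_coe
  infer_instance

theorem spT_le_ker (B : K →L[ℂ] K) (p : ℕ) : spT B p ≤ B.ker := by
  unfold spT
  apply Submodule.topologicalClosure_minimal _ inf_le_left
  exact B.isClosed_ker

theorem spT_eq {B : K →L[ℂ] K} {p : ℕ} (h : IsClosed ((B ^ p).range : Set K)) :
    spT B p = B.ker ⊓ (B ^ p).range := by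
  unfold spT
  apply IsClosed.submodule_topologicalClosure_eq
  rw [Submodule.coe_inf]
  exact B.isClosed_ker.inter h

theorem C_mem_orthogonal {A : H →L[ℂ] H} {B : K →L[ℂ] K} {p : ℕ} {C : K →L[ℂ] H}
    (hC : IsAdmissible A B p C) (k : K) : C k ∈ (spS A p)ᗮ := by
  obtain ⟨J, hJ, h0⟩ := hC
  have := hasProj_spT B p
  obtain ⟨t, ht, u, hu, rfl⟩ := (spT B p).exists_add_mem_mem_orthogonal k
  rw [map_add, h0 u hu, add_zero, hJ ⟨t, ht⟩]
  exact (J ⟨t, ht⟩).2

theorem mem_orthogonal_of_C_eq_zero {A : H →L[ℂ] H} {B : K →L[ℂ] K} {p : ℕ} {C : K →L[ℂ] H}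
    (hC : IsAdmissible A B p C) {k : K} (hk : C k = 0) : k ∈ (spT B p)ᗮ := by
  obtain ⟨J, hJ, h0⟩ := hC
  have := hasProj_spT B p
  obtain ⟨t, ht, u, hu, rfl⟩ := (spT B p).exists_add_mem_mem_orthogonal k
  rw [map_add, h0 u hu, add_zero, hJ ⟨t, ht⟩] at hk
  have h1 : J ⟨t, ht⟩ = 0 := Subtype.ext hk
  have h2 : (⟨t, ht⟩ : spT B p) = 0 := by
    apply J.injective
    rw [h1, map_zero]
  have h3 : t = 0 := congrArg Subtype.val h2
  rw [h3, zero_add]
  exact hu

/-- The ascent of `M_C` is at most `p`. -/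
theorem asc_blockOp_le {A : H →L[ℂ] H} {B : K →L[ℂ] K} {p : ℕ} {C : K →L[ℂ] H}
    (hp : 1 ≤ p) (hA : asc A ≤ p) (hC : IsAdmissible A B p C) : asc (blockOp A C B) ≤ p := by
  apply asc_le_of_ker_eq
  apply le_antisymm _ (ker_pow_mono _ (Nat.le_succ p))
  intro z hz
  rw [mem_ker_pow] at hz
  set M := blockOp A C B with hM
  have hkerA : (A ^ (p + 1)).ker = (A ^ p).ker := asc_le_iff.1 hA
  -- the recursion
  have hrec : ∀ n : ℕ, ((M ^ (n + 1)) z).fst = A (((M ^ n) z).fst) + C ((B ^ n) z.snd) := by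
    intro n
    rw [pow_succ', mul_apply_eq_comp, hM, blockOp_fst, blockOp_pow_snd]
  have hker_le : (A ^ p).ker ≤ spS A p := le_sup_right
  have hran_le : A.range ≤ spS A p := le_sup_left
  have hinter : ∀ x, x ∈ spS A p → x ∈ (spS A p)ᗮ → x = 0 := by
    intro x h1 h2
    exact inner_self_eq_zero.1 ((Submodule.mem_orthogonal _ _).1 h2 x h1)
  -- step 1
  have hBy1 : B ((B ^ p) z.snd) = 0 := by
    have := congrArg WithLp.snd hz
    rw [hM, blockOp_pow_snd, pow_succ', mul_apply_eq_comp] at this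
    exact this
  have hBT : (B ^ p) z.snd ∈ spT B p := by
    apply Submodule.le_topologicalClosure
    exact ⟨hBy1, ⟨z.snd, rfl⟩⟩
  have h0 : A (((M ^ p) z).fst) + C ((B ^ p) z.snd) = 0 := by
    rw [← hrec, hz]
    rfl
  have hCp : C ((B ^ p) z.snd) = 0 := by
    apply hinter _ _ (C_mem_orthogonal hC _)
    have : C ((B ^ p) z.snd) = - A (((M ^ p) z).fst) := by
      rw [eq_neg_iff_add_eq_zero, add_comm]; exact h0
    rw [this]
    exact (spS A p).neg_mem (hran_le ⟨_, rfl⟩)
  have hAp : A (((M ^ p) z).fst) = 0 := by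
    rw [hCp, add_zero] at h0
    exact h0
  have hBp : (B ^ p) z.snd = 0 := by
    have h1 := mem_orthogonal_of_C_eq_zero hC hCp
    exact inner_self_eq_zero.1 ((Submodule.mem_orthogonal _ _).1 h1 _ hBT)
  -- step 2
  have hdown : ∀ m : ℕ, m ≤ p → ((M ^ (p - m)) z).fst ∈ (A ^ p).ker ∧
      ((M ^ p) z).fst = (A ^ m) (((M ^ (p - m)) z).fst) := by
    intro m
    induction m with
    | zero =>
      intro _
      constructor
      · apply ker_pow_mono A hp
        rw [mem_ker_pow, pow_one]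
        exact hAp
      · simp
    | succ m ih =>
      intro hm
      obtain ⟨ih1, ih2⟩ := ih (by omega)
      have hidx : p - m = (p - (m + 1)) + 1 := by omega
      rw [hidx, hrec] at ih1
      have hCz : C ((B ^ (p - (m + 1))) z.snd) = 0 := by
        apply hinter _ _ (C_mem_orthogonal hC _)
        have h3 := (spS A p).sub_mem (hker_le ih1)
          (hran_le ⟨((M ^ (p - (m + 1))) z).fst, rfl⟩)
        simpa using h3
      constructor
      · rw [hCz, add_zero, mem_ker_pow, ← mul_apply_eq_comp, ← pow_succ, ← mem_ker_pow,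
          hkerA] at ih1
        exact ih1
      · rw [ih2, hidx, hrec, hCz, add_zero, ← mul_apply_eq_comp, ← pow_succ]
  obtain ⟨h1, h2⟩ := hdown p le_rfl
  rw [mem_ker_pow]
  apply withLp_ext
  · rw [h2]
    exact mem_ker_pow.1 h1
  · rw [hM, blockOp_pow_snd]
    exact hBp

/-- The lifting lemma for `B`. -/
theorem lift_lemma {B : K →L[ℂ] K} {p : ℕ} (hd : (B ^ (p + 1)).range = (B ^ p).range)
    (hcl : IsClosed ((B ^ p).range : Set K)) (n : K) (m : ℕ) (hm : m ≤ p) :
    ∃ y ∈ (B ^ p).range, (B ^ m) y = 0 ∧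
      ∀ i < m, (B ^ (p - m + i)) n - (B ^ i) y ∈ (spT B p)ᗮ := by
  induction m with
  | zero => exact ⟨0, Submodule.zero_mem _, map_zero _, fun i hi => absurd hi (Nat.not_lt_zero i)⟩
  | succ m ih =>
    obtain ⟨y, hy, hy0, hyi⟩ := ih (by omega)
    have hy' := hy
    rw [← hd, mem_range_pow] at hy'
    obtain ⟨x, hx⟩ := hy'
    rw [pow_succ', mul_apply_eq_comp] at hx
    have := hasProj_spT B p
    obtain ⟨t, ht, u, hu, htu⟩ :=
      (spT B p).exists_add_mem_mem_orthogonal ((B ^ (p - (m + 1))) n - (B ^ p) x)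
    have hBt : B t = 0 := spT_le_ker B p ht
    have htr : t ∈ (B ^ p).range := by
      rw [spT_eq hcl] at ht
      exact ht.2
    have hB : B ((B ^ p) x + t) = y := by rw [map_add, hBt, add_zero, hx]
    refine ⟨(B ^ p) x + t, Submodule.add_mem _ ⟨x, rfl⟩ htr, ?_, ?_⟩
    · rw [pow_succ, mul_apply_eq_comp, hB, hy0]
    · intro i hi
      cases i with
      | zero =>
        have : (B ^ (p - (m + 1) + 0)) n - (B ^ 0) ((B ^ p) x + t) = u := by
          rw [add_zero, pow_zero, one_apply_eq_self, ← sub_sub, htu]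
          abel
        rw [this]
        exact hu
      | succ i =>
        have h1 := hyi i (by omega)
        have hidx : p - (m + 1) + (i + 1) = p - m + i := by omega
        rw [hidx, pow_succ B i, mul_apply_eq_comp, hB]
        exact h1

/-- The descent of `M_C` is at most `p`. -/
theorem dsc_blockOp_le {A : H →L[ℂ] H} {B : K →L[ℂ] K} {p : ℕ} {C : K →L[ℂ] H}
    (hp : 1 ≤ p) (hB : dsc B ≤ p) (hcl : IsClosed ((B ^ p).range : Set K))
    (hS : IsClosed (spS A p : Set H)) (hC : IsAdmissible A B p C) :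
    dsc (blockOp A C B) ≤ p := by
  apply dsc_le_of_range_eq
  apply le_antisymm (range_pow_anti _ (Nat.le_succ p))
  set M := blockOp A C B with hM
  have hd : (B ^ (p + 1)).range = (B ^ p).range := dsc_le_iff.1 hB
  -- it suffices to split every vector
  suffices hsplit : ∀ v : WithLp 2 (H × K), ∃ u w : WithLp 2 (H × K), v = M u + w ∧ (M ^ p) w = 0 by
    intro x hx
    rw [mem_range_pow] at hx
    obtain ⟨v, rfl⟩ := hx
    obtain ⟨u, w, rfl, hw⟩ := hsplit v
    rw [mem_range_pow]
    exact ⟨u, by rw [map_add, hw, add_zero, pow_succ, mul_apply_eq_comp]⟩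
  -- splitting of vectors `(h, 0)`
  have hS1 : ∀ h : H, ∃ u w : WithLp 2 (H × K),
      WithLp.toLp 2 (h, (0 : K)) = M u + w ∧ (M ^ p) w = 0 := by
    intro h
    have : CompleteSpace (spS A p) := hS.completeSpace_coe
    obtain ⟨s, hs, s', hs', rfl⟩ := (spS A p).exists_add_mem_mem_orthogonal h
    obtain ⟨a, ha, b, hb, rfl⟩ := Submodule.mem_sup.1 hs
    obtain ⟨a, rfl⟩ := ha
    obtain ⟨J, hJ, h0⟩ := hC
    obtain ⟨t, ht⟩ := J.surjective ⟨s', hs'⟩
    have hCt : C t = s' := by rw [hJ t, ht]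
    have hBt : B t = 0 := spT_le_ker B p t.2
    refine ⟨WithLp.toLp 2 (a, (t : K)), WithLp.toLp 2 (b, (0 : K)), ?_, ?_⟩
    · apply withLp_ext
      · change A a + b + s' = (A a + C t) + b
        rw [hCt]
        abel
      · change (0 : K) = B t + 0
        rw [hBt, add_zero]
    · have hind : ∀ n : ℕ, (M ^ n) (WithLp.toLp 2 (b, (0 : K))) =
          WithLp.toLp 2 ((A ^ n) b, (0 : K)) := by
        intro n
        induction n with
        | zero => simp
        | succ n ih =>
          rw [pow_succ', mul_apply_eq_comp, ih]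
          apply withLp_ext
          · change A ((A ^ n) b) + C 0 = (A ^ (n + 1)) b
            rw [map_zero, add_zero, pow_succ', mul_apply_eq_comp]
          · change B 0 = 0
            rw [map_zero]
      rw [hind p, mem_ker_pow.1 hb]
      rfl
  intro v
  -- step A
  have hA1 : ∃ x n : K, v.snd = (B ^ p) x + n ∧ (B ^ p) n = 0 := by
    have h1 : (B ^ p) v.snd ∈ (B ^ (p + p)).range := by
      rw [range_pow_stable hd p]
      exact ⟨_, rfl⟩
    obtain ⟨x, hx⟩ := mem_range_pow.1 h1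
    refine ⟨x, v.snd - (B ^ p) x, by abel, ?_⟩
    rw [map_sub, ← mul_apply_eq_comp, ← pow_add, hx, sub_self]
  obtain ⟨x, n, hxn, hn⟩ := hA1
  obtain ⟨y, hy, hy0, hyi⟩ := lift_lemma hd hcl n p le_rfl
  obtain ⟨y', rfl⟩ := mem_range_pow.1 hy
  set w : K := n - (B ^ p) y' with hw
  have hwC : ∀ i < p, C ((B ^ i) w) = 0 := by
    intro i hi
    obtain ⟨J, hJ, h0⟩ := hC
    apply h0
    have := hyi i hi
    rw [Nat.sub_self, zero_add] at this
    rw [hw, map_sub]
    exact this
  have hwB : (B ^ p) w = 0 := by rw [hw, map_sub, hn, hy0, sub_zero]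
  have hMw : ∀ i ≤ p, (M ^ i) (WithLp.toLp 2 ((0 : H), w)) = WithLp.toLp 2 ((0 : H), (B ^ i) w) := by
    intro i
    induction i with
    | zero => intro _; simp
    | succ i ih =>
      intro hi
      rw [pow_succ', mul_apply_eq_comp, ih (by omega)]
      apply withLp_ext
      · change A 0 + C ((B ^ i) w) = 0
        rw [map_zero, zero_add, hwC i (by omega)]
      · change B ((B ^ i) w) = (B ^ (i + 1)) w
        rw [pow_succ' B i, mul_apply_eq_comp]
  -- `B^p (x + y') = B u`
  obtain ⟨q, rfl⟩ : ∃ q, p = q + 1 := ⟨p - 1, by omega⟩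
  set u : K := (B ^ q) (x + y') with hu
  have hBu : B u = (B ^ (q + 1)) (x + y') := by rw [hu, pow_succ' B q, mul_apply_eq_comp]
  obtain ⟨u2, w2, h2, h2'⟩ := hS1 (v.fst - C u)
  refine ⟨WithLp.toLp 2 ((0 : H), u) + u2, WithLp.toLp 2 ((0 : H), w) + w2, ?_, ?_⟩
  · have : M (WithLp.toLp 2 ((0 : H), u) + u2) + (WithLp.toLp 2 ((0 : H), w) + w2) =
        M (WithLp.toLp 2 ((0 : H), u)) + WithLp.toLp 2 ((0 : H), w) + (M u2 + w2) := by
      rw [map_add]
      abel
    rw [this, ← h2]
    apply withLp_ext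
    · change v.fst = (A 0 + C u + 0) + (v.fst - C u)
      rw [map_zero]
      abel
    · change v.snd = (B u + w) + 0
      rw [hBu, hw, hxn, map_add]
      abel
  · rw [map_add, h2', add_zero, hMw _ le_rfl, hwB]
    rfl

/-- **Q2 is true.** Condition (iii), separability and infinite dimension are not needed. -/
theorem main (H K : Type*)
    [NormedAddCommGroup H] [InnerProductSpace ℂ H] [CompleteSpace H]
    [NormedAddCommGroup K] [InnerProductSpace ℂ K] [CompleteSpace K]
    (A : H →L[ℂ] H) (B : K →L[ℂ] K) (hB : IsRightDrazin B)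
    (p : ℕ) (hp : 1 ≤ p) (hpA : asc A ≤ p) (hpB : dsc B ≤ p) (hE : CondE A B p)
    (C : K →L[ℂ] H) (hC : IsAdmissible A B p C) :
    IsDrazin (blockOp A C B) := by
  have hcl : IsClosed ((B ^ p).range : Set K) := by
    obtain ⟨d, hd, hcl⟩ := hB
    have hdp : d ≤ p := by
      rw [hd] at hpB
      exact_mod_cast hpB
    obtain ⟨m, rfl⟩ := Nat.exists_eq_add_of_le hdp
    have := range_pow_stable (dsc_le_iff.1 hd.le) m
    rw [this]
    exact hcl
  exact ⟨lt_of_le_of_lt (asc_blockOp_le hp hpA hC) (ENat.natCast_lt_top p),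
    lt_of_le_of_lt (dsc_blockOp_le hp hpB hcl hE.1 hC) (ENat.natCast_lt_top p)⟩

end Pool.Agent.H26.SL.DrzQ2True
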