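import Pool.Agent.H26.DrazinDefs
import Pool.Agent.H26.SL.Drz

/-! Comparison of the two forms of the definitions. -/

set_option autoImplicit false

namespace Pool.Agent.H26.SL.DrzT

open Pool.Agent.H26
open scoped InnerProductSpace

section Single

variable {E : Type*} [NormedAddCommGroup E] [InnerProductSpace ℂ E]

theorem pow_app (T : E →L[ℂ] E) (n : ℕ) (x : E) : (T ^ n) x = (⇑T)^[n] x := by
  induction n generalizing x with
  | zero => rfl
  | succ n ih =>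
    rw [Function.iterate_succ_apply, ← ih (T x), pow_succ]
    rfl

theorem ker_iff (T : E →L[ℂ] E) (k l : ℕ) :
    {x | (⇑T)^[k] x = 0} = {x | (⇑T)^[l] x = 0} ↔ (T ^ k).ker = (T ^ l).ker := by
  have h : ∀ m : ℕ, (((T ^ m).ker : Submodule ℂ E) : Set E) = {x | (⇑T)^[m] x = 0} := by
    intro m
    ext x
    change (T ^ m) x = 0 ↔ (⇑T)^[m] x = 0
    rw [pow_app]
  have h2 := SetLike.coe_set_eq (p := (T ^ k).ker) (q := (T ^ l).ker)
  rw [h, h] at h2
  exact h2

theorem range_coe (T : E →L[ℂ] E) (m : ℕ) :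
    (((T ^ m).range : Submodule ℂ E) : Set E) = Set.range (⇑T)^[m] := by
  ext x
  constructor
  · rintro ⟨y, rfl⟩
    exact ⟨y, (pow_app T m y).symm⟩
  · rintro ⟨y, rfl⟩
    exact ⟨y, pow_app T m y⟩

theorem range_iff (T : E →L[ℂ] E) (k l : ℕ) :
    Set.range (⇑T)^[k] = Set.range (⇑T)^[l] ↔ (T ^ k).range = (T ^ l).range := by
  have h2 := SetLike.coe_set_eq (p := (T ^ k).range) (q := (T ^ l).range)
  rw [range_coe, range_coe] at h2
  exact h2

theorem asc_eq (T : E →L[ℂ] E) : Drz.asc (⇑T) = Drazin.asc T := by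
  unfold Drz.asc Drazin.asc
  refine iInf_congr fun k => ?_
  rw [iInf_congr_Prop (ker_iff T (k + 1) k) (fun _ => rfl)]

theorem dsc_eq (T : E →L[ℂ] E) : Drz.dsc (⇑T) = Drazin.dsc T := by
  unfold Drz.dsc Drazin.dsc
  refine iInf_congr fun k => ?_
  rw [iInf_congr_Prop (range_iff T (k + 1) k) (fun _ => rfl)]

theorem isDrazin_iff (T : E →L[ℂ] E) : Drz.IsDrazin (⇑T) ↔ Drazin.IsDrazin T := by
  unfold Drz.IsDrazin Drazin.IsDrazin
  rw [asc_eq, dsc_eq]

theorem isLeft_iff (T : E →L[ℂ] E) : Drz.IsLeftDrazin (⇑T) ↔ Drazin.IsLeftDrazin T := by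
  unfold Drz.IsLeftDrazin Drazin.IsLeftDrazin
  simp only [asc_eq, range_coe]

theorem isRight_iff (T : E →L[ℂ] E) : Drz.IsRightDrazin (⇑T) ↔ Drazin.IsRightDrazin T := by
  unfold Drz.IsRightDrazin Drazin.IsRightDrazin
  simp only [dsc_eq, range_coe]

theorem hdim_coe (M : Submodule ℂ E) : Drz.hdim (M : Set E) = Drazin.hdim M := by
  unfold Drz.hdim Drazin.hdim
  rw [Submodule.span_eq]

theorem perp_coe (M : Submodule ℂ E) : Drz.perp (M : Set E) = ((Mᗮ : Submodule ℂ E) : Set E) := by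
  ext y
  change (∀ s ∈ (M : Set E), inner ℂ s y = 0) ↔ y ∈ Mᗮ
  rw [Submodule.mem_orthogonal]
  rfl

end Single

section Pair

variable {H K : Type*} [NormedAddCommGroup H] [InnerProductSpace ℂ H]
  [NormedAddCommGroup K] [InnerProductSpace ℂ K]

theorem condIII_iff (A : H →L[ℂ] H) (B : K →L[ℂ] K) :
    Drz.CondIII (⇑A) (⇑B) ↔ Drazin.CondIII A B := by
  unfold Drz.CondIII Drazin.CondIII
  refine exists_congr fun δ => and_congr Iff.rfl (forall_congr' fun μ => ?_)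
  have h1 : (Set.range fun x => A x - μ • x) =
      (((A - μ • (1 : H →L[ℂ] H)).range : Submodule ℂ H) : Set H) := by
    ext y
    rfl
  have h2 : {x | B x - μ • x = 0} =
      (((B - μ • (1 : K →L[ℂ] K)).ker : Submodule ℂ K) : Set K) := by
    ext y
    rfl
  rw [h1, h2, perp_coe, hdim_coe, hdim_coe]

theorem spS_coe (A : H →L[ℂ] H) (p : ℕ) :
    Drz.spS (⇑A) p = ((Drazin.spS A p : Submodule ℂ H) : Set H) := by
  ext y
  unfold Drazin.spS
  rw [SetLike.mem_coe, Submodule.mem_sup]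
  constructor
  · rintro ⟨x, z, hz, rfl⟩
    refine ⟨A x, ⟨x, rfl⟩, z, ?_, rfl⟩
    change (A ^ p) z = 0
    rw [pow_app]
    exact hz
  · rintro ⟨_, ⟨x, rfl⟩, z, hz, rfl⟩
    refine ⟨x, z, ?_, rfl⟩
    change (A ^ p) z = 0 at hz
    rw [pow_app] at hz
    exact hz

theorem spT_coe (B : K →L[ℂ] K) (p : ℕ) :
    Drz.spT (⇑B) p = ((Drazin.spT B p : Submodule ℂ K) : Set K) := by
  unfold Drazin.spT Drz.spT
  rw [Submodule.topologicalClosure_coe, Submodule.coe_inf, range_coe]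
  rfl

theorem condE_iff (A : H →L[ℂ] H) (B : K →L[ℂ] K) (p : ℕ) :
    Drz.CondE (⇑A) (⇑B) p ↔ Drazin.CondE A B p := by
  unfold Drz.CondE Drazin.CondE
  rw [spS_coe, spT_coe, perp_coe, hdim_coe, hdim_coe]

theorem isAdmissible_iff [CompleteSpace H] [CompleteSpace K] (A : H →L[ℂ] H) (B : K →L[ℂ] K)
    (p : ℕ) (C : K →L[ℂ] H) :
    Drz.IsAdmissible (⇑A) (⇑B) p (⇑C) ↔ Drazin.IsAdmissible A B p C := by
  unfold Drz.IsAdmissible Drazin.IsAdmissible
  rw [spS_coe, spT_coe, perp_coe, perp_coe]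
  constructor
  · rintro ⟨hbij, h0⟩
    let f : Drazin.spT B p →L[ℂ] (Drazin.spS A p)ᗮ :=
      (C ∘L (Drazin.spT B p).subtypeL).codRestrict _ (fun t => hbij.mapsTo t.2)
    have hf : ∀ t : Drazin.spT B p, ((f t : (Drazin.spS A p)ᗮ) : H) = C t := fun t => rfl
    have hinj : f.ker = ⊥ := by
      rw [LinearMap.ker_eq_bot]
      intro s t hst
      apply Subtype.ext
      apply hbij.injOn s.2 t.2
      have := congrArg (fun z : (Drazin.spS A p)ᗮ => (z : H)) hst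
      exact this
    have hsurj : f.range = ⊤ := by
      rw [LinearMap.range_eq_top]
      intro y
      obtain ⟨t, ht, hty⟩ := hbij.surjOn y.2
      exact ⟨⟨t, ht⟩, Subtype.ext hty⟩
    have hcT : CompleteSpace (Drazin.spT B p) :=
      (Submodule.isClosed_topologicalClosure _).completeSpace_coe
    have hcS : CompleteSpace ((Drazin.spS A p)ᗮ : Submodule ℂ H) :=
      (Submodule.isClosed_orthogonal _).completeSpace_coe
    refine ⟨ContinuousLinearEquiv.ofBijective f hinj hsurj, fun t => ?_, h0⟩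
    rw [ContinuousLinearEquiv.coeFn_ofBijective, hf]
  · rintro ⟨J, hJ, h0⟩
    refine ⟨⟨?_, ?_, ?_⟩, h0⟩
    · intro t ht
      have := hJ ⟨t, ht⟩
      change C t = _ at this
      rw [this]
      exact (J ⟨t, ht⟩).2
    · intro s hs t ht hst
      have h1 := hJ ⟨s, hs⟩
      have h2 := hJ ⟨t, ht⟩
      change C s = _ at h1
      change C t = _ at h2
      rw [h1, h2] at hst
      have := J.injective (Subtype.ext hst)
      exact congrArg Subtype.val this
    · intro y hy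
      refine ⟨(J.symm ⟨y, hy⟩ : Drazin.spT B p), (J.symm ⟨y, hy⟩).2, ?_⟩
      rw [hJ, ContinuousLinearEquiv.apply_symm_apply]

/-- the matrices -/
theorem iter_block (A : H →L[ℂ] H) (C : K →L[ℂ] H) (B : K →L[ℂ] K) (n : ℕ)
    (z : WithLp 2 (H × K)) :
    (((⇑(Drazin.blockOp A C B))^[n] z).fst, ((⇑(Drazin.blockOp A C B))^[n] z).snd) =
      (Drz.blockOp (⇑A) (⇑C) (⇑B))^[n] (z.fst, z.snd) := by
  have h : Function.Semiconj (fun w : WithLp 2 (H × K) => (w.fst, w.snd))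
      (⇑(Drazin.blockOp A C B)) (Drz.blockOp (⇑A) (⇑C) (⇑B)) := by
    intro w
    simp only [Drazin.blockOp_fst, Drazin.blockOp_snd, Drz.blockOp]
  exact h.iterate_right n z

theorem isDrazin_block (A : H →L[ℂ] H) (C : K →L[ℂ] H) (B : K →L[ℂ] K) :
    Drz.IsDrazin (Drz.blockOp (⇑A) (⇑C) (⇑B)) ↔ Drazin.IsDrazin (Drazin.blockOp A C B) := by
  rw [← isDrazin_iff]
  let e : WithLp 2 (H × K) ≃ H × K :=
    { toFun := fun w => (w.fst, w.snd)
      invFun := fun z => WithLp.toLp 2 z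
      left_inv := fun w => rfl
      right_inv := fun z => rfl }
  have he : ∀ n z, e ((⇑(Drazin.blockOp A C B))^[n] z) =
      (Drz.blockOp (⇑A) (⇑C) (⇑B))^[n] (e z) := fun n z => iter_block A C B n z
  have he0 : ∀ z, e z = 0 ↔ z = 0 := by
    intro z
    have h0 : e 0 = 0 := rfl
    rw [← h0, e.injective.eq_iff]
  have hker : ∀ k l : ℕ, {x | (Drz.blockOp (⇑A) (⇑C) (⇑B))^[k] x = 0} =
      {x | (Drz.blockOp (⇑A) (⇑C) (⇑B))^[l] x = 0} ↔
      {x | (⇑(Drazin.blockOp A C B))^[k] x = 0} = {x | (⇑(Drazin.blockOp A C B))^[l] x = 0} := by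
    intro k l
    simp only [Set.ext_iff]
    constructor
    · intro h z
      have := h (e z)
      change (Drz.blockOp (⇑A) (⇑C) (⇑B))^[k] (e z) = 0 ↔
        (Drz.blockOp (⇑A) (⇑C) (⇑B))^[l] (e z) = 0 at this
      rw [← he, ← he, he0, he0] at this
      exact this
    · intro h z
      have := h (e.symm z)
      change (⇑(Drazin.blockOp A C B))^[k] (e.symm z) = 0 ↔
        (⇑(Drazin.blockOp A C B))^[l] (e.symm z) = 0 at this
      rw [← he0, ← he0, he, he, Equiv.apply_symm_apply] at this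
      exact this
  have hran : ∀ k : ℕ, Set.range (Drz.blockOp (⇑A) (⇑C) (⇑B))^[k] =
      e '' Set.range (⇑(Drazin.blockOp A C B))^[k] := by
    intro k
    ext z
    constructor
    · rintro ⟨w, rfl⟩
      refine ⟨_, ⟨e.symm w, rfl⟩, ?_⟩
      rw [he, Equiv.apply_symm_apply]
    · rintro ⟨_, ⟨w, rfl⟩, rfl⟩
      exact ⟨e w, (he k w).symm⟩
  have hr2 : ∀ k l : ℕ, Set.range (Drz.blockOp (⇑A) (⇑C) (⇑B))^[k] =
      Set.range (Drz.blockOp (⇑A) (⇑C) (⇑B))^[l] ↔
      Set.range (⇑(Drazin.blockOp A C B))^[k] = Set.range (⇑(Drazin.blockOp A C B))^[l] := by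
    intro k l
    rw [hran, hran]
    exact e.injective.image_injective.eq_iff
  unfold Drz.IsDrazin Drz.asc Drz.dsc
  have a1 : (⨅ (k : ℕ) (_ : {x | (Drz.blockOp (⇑A) (⇑C) (⇑B))^[k + 1] x = 0} =
      {x | (Drz.blockOp (⇑A) (⇑C) (⇑B))^[k] x = 0}), (k : ℕ∞)) =
      ⨅ (k : ℕ) (_ : {x | (⇑(Drazin.blockOp A C B))^[k + 1] x = 0} =
        {x | (⇑(Drazin.blockOp A C B))^[k] x = 0}), (k : ℕ∞) := by
    refine iInf_congr fun k => ?_
    rw [iInf_congr_Prop (hker (k + 1) k) (fun _ => rfl)]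
  have a2 : (⨅ (k : ℕ) (_ : Set.range (Drz.blockOp (⇑A) (⇑C) (⇑B))^[k + 1] =
      Set.range (Drz.blockOp (⇑A) (⇑C) (⇑B))^[k]), (k : ℕ∞)) =
      ⨅ (k : ℕ) (_ : Set.range (⇑(Drazin.blockOp A C B))^[k + 1] =
        Set.range (⇑(Drazin.blockOp A C B))^[k]), (k : ℕ∞) := by
    refine iInf_congr fun k => ?_
    rw [iInf_congr_Prop (hr2 (k + 1) k) (fun _ => rfl)]
  rw [a1, a2]

end Pair

end Pool.Agent.H26.SL.DrzT
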