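import Mathlib

/-!
# Complex equiangular tight frames in coordinates: definitions

Vectors of `C^M` are functions from `Fin M` to the complex numbers.
-/

namespace Pool.Agent.H26.SL.Etf

/-- The inner product of `x` and `y` in `C^M`. -/
def ip {M : ℕ} (x y : Fin M → ℂ) : ℂ := ∑ k, star (x k) * y k

/-- The `N` vectors `f i` of `C^M` form an equiangular tight frame: they span `C^M`, have norm `1`,
are tight, and `|⟨f i, f j⟩|` does not depend on `i ≠ j`. -/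
def IsETF {N M : ℕ} (f : Fin N → Fin M → ℂ) : Prop :=
  (∀ x : Fin M → ℂ, ∃ a : Fin N → ℂ, ∀ k, x k = ∑ i, a i * f i k) ∧
  (∀ i, ip (f i) (f i) = 1) ∧
  (∃ A : ℝ, 0 < A ∧ ∀ x : Fin M → ℂ, ∑ i, ‖ip x (f i)‖ ^ 2 = A * ∑ k, ‖x k‖ ^ 2) ∧
  ∃ c : ℝ, ∀ i j, i ≠ j → ‖ip (f i) (f j)‖ = c

/-- Equivalence of frames: `g i = c i • U (f (σ i))` with `U` a unitary matrix, `σ` a permutation
and `|c i| = 1`. -/
def Equivalent {N M : ℕ} (f g : Fin N → Fin M → ℂ) : Prop :=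
  ∃ (U : Fin M → Fin M → ℂ) (σ : Fin N → Fin N) (c : Fin N → ℂ),
    (∀ k l, ∑ m, star (U m k) * U m l = if k = l then 1 else 0) ∧ Function.Bijective σ ∧
    (∀ i, ‖c i‖ = 1) ∧ ∀ i k, g i k = c i * ∑ l, U k l * f (σ i) l

/-- A conference matrix of order `m`: zero diagonal, `±1` off the diagonal, orthogonal rows; and
`W j i = ε * W i j`: symmetric for `ε = 1`, skew-symmetric for `ε = -1`. -/
def IsConference (ε : ℤ) {m : ℕ} (W : Fin m → Fin m → ℤ) : Prop :=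
  (∀ i, W i i = 0) ∧ (∀ i j, i ≠ j → W i j = 1 ∨ W i j = -1) ∧ (∀ i j, W j i = ε * W i j) ∧
  ∀ i j, i ≠ j → ∑ k, W i k * W j k = 0

end Pool.Agent.H26.SL.Etf
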