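import Pool.Agent.H26.SL.Etf
import Pool.Agent.H37.EtfDefs

/-!
# The definitions in coordinates agree with the old ones
-/

namespace Pool.Agent.H26.SL.Etf

open scoped InnerProductSpace

open Finset

/-- the vector of the Euclidean space -/
noncomputable def ev {M : ℕ} (x : Fin M → ℂ) : EuclideanSpace ℂ (Fin M) := WithLp.toLp 2 x

theorem ev_apply {M : ℕ} (x : Fin M → ℂ) (k : Fin M) : ev x k = x k := rfl

theorem inner_ev {M : ℕ} (x y : Fin M → ℂ) : ⟪ev x, ev y⟫_ℂ = ip x y := by
  unfold ip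
  rw [PiLp.inner_apply]
  refine Finset.sum_congr rfl fun k _ => ?_
  rw [RCLike.inner_apply, ev_apply, ev_apply, mul_comm]
  rfl

theorem norm_ev {M : ℕ} (x : Fin M → ℂ) : ‖ev x‖ ^ 2 = ∑ k, ‖x k‖ ^ 2 := by
  rw [EuclideanSpace.norm_sq_eq]
  rfl

theorem ip_self {M : ℕ} (x : Fin M → ℂ) : ip x x = ((‖ev x‖ ^ 2 : ℝ) : ℂ) := by
  rw [← inner_ev, inner_self_eq_norm_sq_to_K]
  norm_cast

theorem isETF_iff {N M : ℕ} (f : Fin N → Fin M → ℂ) :
    IsETF f ↔ Pool.Agent.H37.Etf.IsETF (fun i => ev (f i)) := by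
  have hspan : (∀ x : Fin M → ℂ, ∃ a : Fin N → ℂ, ∀ k, x k = ∑ i, a i * f i k) ↔
      Submodule.span ℂ (Set.range fun i => ev (f i)) = ⊤ := by
    constructor
    · intro h
      rw [eq_top_iff]
      intro x _
      obtain ⟨a, ha⟩ := h (fun k => x k)
      have hx : x = ∑ i, a i • ev (f i) := by
        ext k
        have h1 : (∑ i, a i • ev (f i)) k = ∑ i, (a i • ev (f i)) k := by
          simp
        rw [h1]
        exact ha k
      rw [hx]
      exact Submodule.sum_mem _ fun i _ => Submodule.smul_mem _ _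
        (Submodule.subset_span ⟨i, rfl⟩)
    · intro h x
      have hx : ev x ∈ Submodule.span ℂ (Set.range fun i => ev (f i)) := by
        rw [h]; trivial
      rw [Submodule.mem_span_range_iff_exists_fun] at hx
      obtain ⟨a, ha⟩ := hx
      refine ⟨a, fun k => ?_⟩
      have h1 : (∑ i, a i • ev (f i)) k = ∑ i, (a i • ev (f i)) k := by
        simp
      rw [← ev_apply x k, ← ha, h1]
      rfl
  have hunit : ∀ i, ip (f i) (f i) = 1 ↔ ‖ev (f i)‖ = 1 := by
    intro i
    rw [ip_self]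
    constructor
    · intro h
      have h2 : ‖ev (f i)‖ ^ 2 = 1 := by exact_mod_cast h
      have h3 : 0 ≤ ‖ev (f i)‖ := norm_nonneg _
      nlinarith [sq_nonneg (‖ev (f i)‖ - 1)]
    · intro h
      rw [h]
      norm_num
  constructor
  · rintro ⟨h1, h2, ⟨A, hA, h3⟩, c, h4⟩
    refine ⟨hspan.1 h1, fun i => (hunit i).1 (h2 i), ⟨A, hA, fun x => ?_⟩, c, fun i j hij => ?_⟩
    · have h5 := h3 (fun k => x k)
      have h6 : ev (fun k => x k) = x := rfl
      rw [← norm_ev (fun k => x k), h6] at h5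
      rw [← h5]
      refine Finset.sum_congr rfl fun i _ => ?_
      rw [← inner_ev, h6]
    · rw [inner_ev]
      exact h4 i j hij
  · rintro ⟨h1, h2, ⟨A, hA, h3⟩, c, h4⟩
    refine ⟨hspan.2 h1, fun i => (hunit i).2 (h2 i), ⟨A, hA, fun x => ?_⟩, c, fun i j hij => ?_⟩
    · rw [← norm_ev x, ← h3 (ev x)]
      refine Finset.sum_congr rfl fun i _ => ?_
      rw [inner_ev]
    · rw [← inner_ev]
      exact h4 i j hij

/-- the linear map of a matrix -/
noncomputable def lm {M : ℕ} (U : Fin M → Fin M → ℂ) :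
    EuclideanSpace ℂ (Fin M) →ₗ[ℂ] EuclideanSpace ℂ (Fin M) where
  toFun x := ev fun k => ∑ l, U k l * x l
  map_add' x y := by
    ext k
    change ∑ l, U k l * (x l + y l) = (∑ l, U k l * x l) + ∑ l, U k l * y l
    rw [← Finset.sum_add_distrib]
    exact Finset.sum_congr rfl fun l _ => mul_add _ _ _
  map_smul' a x := by
    ext k
    change ∑ l, U k l * (a * x l) = a * ∑ l, U k l * x l
    rw [Finset.mul_sum]
    exact Finset.sum_congr rfl fun l _ => by ring

theorem ip_lm {M : ℕ} (U : Fin M → Fin M → ℂ)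
    (hU : ∀ k l, ∑ m, star (U m k) * U m l = if k = l then 1 else 0) (x y : Fin M → ℂ) :
    ip (fun k => ∑ l, U k l * x l) (fun k => ∑ l, U k l * y l) = ip x y := by
  unfold ip
  have h1 : ∀ m, star (∑ l, U m l * x l) * (∑ l, U m l * y l) =
      ∑ k, ∑ l, (star (U m k) * U m l) * (star (x k) * y l) := by
    intro m
    rw [star_sum, Finset.sum_mul_sum]
    refine Finset.sum_congr rfl fun k _ => Finset.sum_congr rfl fun l _ => ?_
    rw [star_mul']
    ring
  rw [Finset.sum_congr rfl fun m _ => h1 m, Finset.sum_comm]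
  refine Finset.sum_congr rfl fun k _ => ?_
  rw [Finset.sum_comm]
  have h2 : ∀ l, ∑ m, (star (U m k) * U m l) * (star (x k) * y l) =
      (if k = l then 1 else 0) * (star (x k) * y l) := by
    intro l
    rw [← Finset.sum_mul, hU]
  rw [Finset.sum_congr rfl fun l _ => h2 l]
  simp

theorem equivalent_iff {N M : ℕ} (f g : Fin N → Fin M → ℂ) :
    Equivalent f g ↔ Pool.Agent.H37.Etf.Equivalent (fun i => ev (f i)) (fun i => ev (g i)) := by
  constructor
  · rintro ⟨U, σ, c, hU, hσ, hc, h⟩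
    have hnorm : ∀ x : EuclideanSpace ℂ (Fin M), ‖lm U x‖ = ‖x‖ := by
      intro x
      have h1 := ip_lm U hU (fun k => x k) (fun k => x k)
      rw [ip_self, ip_self] at h1
      have h2 : ‖lm U x‖ ^ 2 = ‖x‖ ^ 2 := by exact_mod_cast h1
      exact (sq_eq_sq₀ (norm_nonneg _) (norm_nonneg _)).1 h2
    refine ⟨LinearIsometry.toLinearIsometryEquiv ⟨lm U, hnorm⟩ rfl, Equiv.ofBijective σ hσ, c, hc,
      fun i => ?_⟩
    ext k
    exact h i k
  · rintro ⟨U, σ, c, hc, h⟩
    have hU : ∀ (k : Fin M) (x : Fin M → ℂ), U (ev x) k = ∑ l, U (ev (Pi.single l 1)) k * x l := by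
      intro k x
      have h1 : ev x = ∑ l, x l • ev (Pi.single l (1 : ℂ)) := by
        ext j
        have h2 : (∑ l, x l • ev (Pi.single l (1 : ℂ))) j =
            ∑ l, (x l • ev (Pi.single l (1 : ℂ))) j := by simp
        rw [h2]
        change x j = ∑ l, x l * (Pi.single l (1 : ℂ) : Fin M → ℂ) j
        simp [Pi.single_apply]
      conv_lhs => rw [h1]
      rw [map_sum]
      have h3 : (∑ l, U (x l • ev (Pi.single l (1 : ℂ)))) k =
          ∑ l, (U (x l • ev (Pi.single l (1 : ℂ)))) k := by simp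
      rw [h3]
      refine Finset.sum_congr rfl fun l _ => ?_
      rw [map_smul]
      change x l * U (ev (Pi.single l (1 : ℂ))) k = _
      rw [mul_comm]
    refine ⟨fun k l => U (ev (Pi.single l 1)) k, σ, c, fun k l => ?_, σ.bijective, hc,
      fun i k => ?_⟩
    · have h1 : ip (fun m => U (ev (Pi.single k 1)) m) (fun m => U (ev (Pi.single l 1)) m) =
          ⟪U (ev (Pi.single k 1)), U (ev (Pi.single l 1))⟫_ℂ := by
        rw [← inner_ev]
        rfl
      have h2 : ∑ m, star (U (ev (Pi.single k 1)) m) * U (ev (Pi.single l 1)) m =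
          ip (fun m => U (ev (Pi.single k 1)) m) (fun m => U (ev (Pi.single l 1)) m) := rfl
      rw [h2, h1, LinearIsometryEquiv.inner_map_map, inner_ev]
      unfold ip
      simp [Pi.single_apply, eq_comm]
    · have h1 := h i
      have h2 : (ev (g i)) k = (c i • U (ev (f (σ i)))) k :=
        congrArg (fun v : EuclideanSpace ℂ (Fin M) => v k) h1
      rw [ev_apply] at h2
      rw [h2]
      change c i * U (ev (f (σ i))) k = _
      rw [hU]

theorem isConference_iff (ε : ℤ) {m : ℕ} (hm : 1 ≤ m) (W : Fin m → Fin m → ℤ) :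
    IsConference ε W ↔ Pool.Agent.H37.Etf.IsConference ε (Matrix.of W) := by
  constructor
  · rintro ⟨h1, h2, h3, h4⟩
    refine ⟨h1, h2, h3, ?_⟩
    ext i j
    rw [Matrix.mul_apply, Matrix.smul_apply, Matrix.one_apply]
    simp only [Matrix.transpose_apply, Matrix.of_apply]
    by_cases hij : i = j
    · subst hij
      rw [if_pos rfl]
      have h5 : ∀ k, W i k * W i k = if k = i then 0 else 1 := by
        intro k
        by_cases hk : k = i
        · rw [if_pos hk, hk, h1]; norm_num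
        · rw [if_neg hk]
          rcases h2 i k (Ne.symm hk) with h | h <;> rw [h] <;> norm_num
      rw [Finset.sum_congr rfl fun k _ => h5 k, Finset.sum_ite, Finset.sum_const_zero, zero_add,
        Finset.sum_const, Finset.filter_ne', Finset.card_erase_of_mem (Finset.mem_univ _),
        Finset.card_univ, Fintype.card_fin]
      simp only [smul_eq_mul, mul_one, nsmul_eq_mul]
      omega
    · rw [if_neg hij, h4 i j hij]
      simp
  · rintro ⟨h1, h2, h3, h4⟩
    refine ⟨h1, h2, h3, fun i j hij => ?_⟩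
    have h5 := congrFun (congrFun h4 i) j
    rw [Matrix.mul_apply, Matrix.smul_apply, Matrix.one_apply, if_neg hij] at h5
    simpa using h5

/-- families -/
theorem family {D : Type} [TopologicalSpace D] {N M : ℕ} (f₀ : D → Fin N → EuclideanSpace ℂ (Fin M))
    (hc : Continuous f₀) (he : ∀ s, Pool.Agent.H37.Etf.IsETF (f₀ s))
    (hq : ∀ s t, Pool.Agent.H37.Etf.Equivalent (f₀ s) (f₀ t) → s = t) :
    ∃ f : D → Fin N → Fin M → ℂ,
      Continuous f ∧ (∀ s, IsETF (f s)) ∧ ∀ s t, Equivalent (f s) (f t) → s = t := by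
  refine ⟨fun s i k => f₀ s i k, ?_, fun s => (isETF_iff _).2 (he s),
    fun s t h => hq s t ((equivalent_iff _ _).1 h)⟩
  refine continuous_pi fun i => continuous_pi fun k => ?_
  have h1 : Continuous fun s => f₀ s i := (continuous_apply i).comp hc
  exact (PiLp.continuous_apply 2 (fun _ : Fin M => ℂ) k).comp h1

theorem exists_iff {N M : ℕ} : (∃ f : Fin N → Fin M → ℂ, IsETF f) ↔
    ∃ f : Fin N → EuclideanSpace ℂ (Fin M), Pool.Agent.H37.Etf.IsETF f := by
  constructor
  · rintro ⟨f, hf⟩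
    exact ⟨_, (isETF_iff f).1 hf⟩
  · rintro ⟨f, hf⟩
    exact ⟨fun i k => f i k, (isETF_iff _).2 hf⟩

end Pool.Agent.H26.SL.Etf
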